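import Mathlib

/-!
# Spanning spaces of tuples of polynomials by a few multipliers

Tuples `(q_j)` of polynomials with `deg q_j ≤ e_j` are combinations of the tuples
`(δ_{j j₀} t^a)`, `a ≤ γ + 1`, and `μ_v`, `t μ_v` for suitable tuples `μ_1, …, μ_m` with
`deg μ_{v,j} < e_j`, as soon as `∑ (e_j + 1) ≤ 2 m + γ + 2`.
-/

set_option autoImplicit false

namespace Pool.Agent.H50.Lang

open Polynomial

variable {c : ℕ}

/-- The tuple with the monomial `t ^ i` in the place `j`. -/
noncomputable def nd (j : Fin c) (i : ℕ) : Fin c → Polynomial ℂ := Pi.single j (X ^ i)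

lemma X_smul_nd (j : Fin c) (i : ℕ) : (X : Polynomial ℂ) • nd j i = nd j (i + 1) := by
  unfold nd
  rw [← Pi.single_smul, smul_eq_mul, pow_succ']

/-- Spaces obtained from `V₀` by adding `μ`, `t μ`, `k` times. -/
inductive Reach (e : Fin c → ℕ) (V₀ : Submodule ℂ (Fin c → Polynomial ℂ)) :
    ℕ → Submodule ℂ (Fin c → Polynomial ℂ) → Prop
  | base : Reach e V₀ 0 V₀
  | step {k : ℕ} {V : Submodule ℂ (Fin c → Polynomial ℂ)} (h : Reach e V₀ k V)
      (μ : Fin c → Polynomial ℂ) (hμ : ∀ j, (μ j).degree < e j) :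
      Reach e V₀ (k + 1) (V ⊔ Submodule.span ℂ {μ, (X : Polynomial ℂ) • μ})

variable {e : Fin c → ℕ} {V₀ : Submodule ℂ (Fin c → Polynomial ℂ)}

lemma Reach.le {k : ℕ} {V : Submodule ℂ (Fin c → Polynomial ℂ)} (h : Reach e V₀ k V) :
    V₀ ≤ V := by
  induction h with
  | base => exact le_rfl
  | step h μ hμ ih => exact ih.trans le_sup_left

lemma Reach.mono {k : ℕ} {V : Submodule ℂ (Fin c → Polynomial ℂ)} (h : Reach e V₀ k V)
    (m : ℕ) (hkm : k ≤ m) : ∃ V', Reach e V₀ m V' ∧ V ≤ V' := by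
  induction m, hkm using Nat.le_induction with
  | base => exact ⟨V, h, le_rfl⟩
  | succ m _ ih =>
    obtain ⟨V', h1, h2⟩ := ih
    exact ⟨_, h1.step 0 (fun j => by
      rw [Pi.zero_apply, degree_zero]
      exact WithBot.bot_lt_coe _), h2.trans le_sup_left⟩

lemma degree_nd {j : Fin c} {i : ℕ} (hi : i < e j) (j' : Fin c) : (nd j i j').degree < e j' := by
  unfold nd
  by_cases h : j' = j
  · subst h
    rw [Pi.single_eq_same, degree_X_pow]
    exact_mod_cast hi
  · rw [Pi.single_eq_of_ne h, degree_zero]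
    exact WithBot.bot_lt_coe _

lemma Reach.run {k : ℕ} {V : Submodule ℂ (Fin c → Polynomial ℂ)} (h : Reach e V₀ k V)
    (j : Fin c) (a l : ℕ) (hl : a + 2 * l ≤ e j + 1) :
    ∃ V', Reach e V₀ (k + l) V' ∧ V ≤ V' ∧ ∀ i, a ≤ i → i < a + 2 * l → nd j i ∈ V' := by
  induction l with
  | zero => exact ⟨V, h, le_rfl, fun i h1 h2 => by omega⟩
  | succ l ih =>
    obtain ⟨V', h1, h2, h3⟩ := ih (by omega)
    refine ⟨_, h1.step (nd j (a + 2 * l)) (degree_nd (by omega)), h2.trans le_sup_left, ?_⟩
    intro i hi1 hi2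
    by_cases hi : i < a + 2 * l
    · exact Submodule.mem_sup_left (h3 i hi1 hi)
    · apply Submodule.mem_sup_right
      rw [X_smul_nd]
      rcases (show i = a + 2 * l ∨ i = a + 2 * l + 1 by omega) with rfl | rfl
      · exact Submodule.subset_span (by simp)
      · exact Submodule.subset_span (by simp)

/-- Everything but possibly one top monomial is reached. -/
lemma states (he : ∀ j, 1 ≤ e j) (j₀ : Fin c) (γ : ℕ) (hγ : γ + 1 ≤ e j₀)
    (hV₀ : ∀ a, a < γ + 2 → nd j₀ a ∈ V₀) (J : Finset (Fin c)) (hJ : j₀ ∉ J) :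
    ∃ k V, Reach e V₀ k V ∧
      (((∀ j ∈ insert j₀ J, ∀ i, i ≤ e j → nd j i ∈ V) ∧
          2 * k + γ + 2 = ∑ j ∈ insert j₀ J, (e j + 1)) ∨
        (∃ j₁ ∈ insert j₀ J, (∀ j ∈ insert j₀ J, ∀ i, i ≤ e j → (j = j₁ → i ≠ e j) →
          nd j i ∈ V) ∧ 2 * k + γ + 3 = ∑ j ∈ insert j₀ J, (e j + 1))) := by
  classical
  induction J using Finset.induction_on with
  | empty =>
    rcases Nat.even_or_odd' (e j₀ - (γ + 1)) with ⟨l, hl | hl⟩
    · obtain ⟨V, h1, h2, h3⟩ := (Reach.base (e := e) (V₀ := V₀)).run j₀ (γ + 2) l (by omega)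
      refine ⟨_, V, h1, Or.inl ⟨?_, ?_⟩⟩
      · intro j hj i hi
        obtain rfl : j = j₀ := by simpa using hj
        by_cases hi2 : i < γ + 2
        · exact h2 (hV₀ i hi2)
        · exact h3 i (by omega) (by omega)
      · simp
        omega
    · obtain ⟨V, h1, h2, h3⟩ := (Reach.base (e := e) (V₀ := V₀)).run j₀ (γ + 2) l (by omega)
      refine ⟨_, V, h1, Or.inr ⟨j₀, by simp, ?_, ?_⟩⟩
      · intro j hj i hi hne
        obtain rfl : j = j₀ := by simpa using hj
        have := hne rfl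
        by_cases hi2 : i < γ + 2
        · exact h2 (hV₀ i hi2)
        · exact h3 i (by omega) (by omega)
      · simp
        omega
  | insert j' J hj' ih =>
    obtain ⟨k, V, hR, hcase⟩ := ih (fun h => hJ (Finset.mem_insert_of_mem h))
    have hj0 : j' ≠ j₀ := fun h => hJ (by rw [h]; exact Finset.mem_insert_self _ _)
    have hnot : j' ∉ insert j₀ J := by
      rw [Finset.mem_insert]
      rintro (h | h)
      · exact hj0 h
      · exact hj' h
    have hins : insert j₀ (insert j' J) = insert j' (insert j₀ J) := Finset.insert_comm _ _ _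
    rw [hins]
    have hsum : ∑ j ∈ insert j' (insert j₀ J), (e j + 1) =
        (e j' + 1) + ∑ j ∈ insert j₀ J, (e j + 1) := Finset.sum_insert hnot
    rw [hsum]
    have he' := he j'
    rcases hcase with ⟨hfull, hk⟩ | ⟨j₁, hj₁, halm, hk⟩
    · rcases Nat.even_or_odd' (e j' + 1) with ⟨l, hl | hl⟩
      · obtain ⟨V', h1, h2, h3⟩ := hR.run j' 0 l (by omega)
        refine ⟨_, V', h1, Or.inl ⟨?_, by omega⟩⟩
        intro j hj i hi
        rw [Finset.mem_insert] at hj
        rcases hj with rfl | hj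
        · exact h3 i (by omega) (by omega)
        · exact h2 (hfull j hj i hi)
      · obtain ⟨V', h1, h2, h3⟩ := hR.run j' 0 l (by omega)
        refine ⟨_, V', h1, Or.inr ⟨j', Finset.mem_insert_self _ _, ?_, by omega⟩⟩
        intro j hj i hi hne
        rw [Finset.mem_insert] at hj
        rcases hj with rfl | hj
        · have := hne rfl
          exact h3 i (by omega) (by omega)
        · exact h2 (hfull j hj i hi)
    · have hj1' : j' ≠ j₁ := fun h => hnot (h ▸ hj₁)
      rcases Nat.even_or_odd' (e j' + 1) with ⟨l, hl | hl⟩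
      · obtain ⟨V', h1, h2, h3⟩ := hR.run j' 0 l (by omega)
        refine ⟨_, V', h1, Or.inr ⟨j₁, Finset.mem_insert_of_mem hj₁, ?_, by omega⟩⟩
        intro j hj i hi hne
        rw [Finset.mem_insert] at hj
        rcases hj with rfl | hj
        · exact h3 i (by omega) (by omega)
        · exact h2 (halm j hj i hi hne)
      · -- the mixed multiplier
        have he₁ := he j₁
        set μ : Fin c → Polynomial ℂ := nd j₁ (e j₁ - 1) + nd j' 0 with hμ
        have hμd : ∀ j, (μ j).degree < e j := by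
          intro j
          refine lt_of_le_of_lt (degree_add_le _ _) (max_lt ?_ ?_)
          · exact degree_nd (by omega) j
          · exact degree_nd (by omega) j
        obtain ⟨V', h1, h2, h3⟩ := (hR.step μ hμd).run j' 1 l (by omega)
        have hμV : μ ∈ V' := h2 (Submodule.mem_sup_right (Submodule.subset_span (by simp)))
        have hXμV : (X : Polynomial ℂ) • μ ∈ V' :=
          h2 (Submodule.mem_sup_right (Submodule.subset_span (by simp)))
        have hVV' : V ≤ V' := le_sup_left.trans h2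
        refine ⟨_, V', h1, Or.inl ⟨?_, by omega⟩⟩
        intro j hj i hi
        rw [Finset.mem_insert] at hj
        rcases hj with rfl | hj
        · by_cases hi0 : i = 0
          · subst hi0
            have h4 : nd j 0 = μ - nd j₁ (e j₁ - 1) := by rw [hμ]; abel
            rw [h4]
            refine V'.sub_mem hμV (hVV' (halm j₁ hj₁ _ (by omega) (fun _ => by omega)))
          · exact h3 i (by omega) (by omega)
        · by_cases hji : j = j₁ ∧ i = e j
          · obtain ⟨rfl, rfl⟩ := hji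
            have h4 : nd j (e j) = (X : Polynomial ℂ) • μ - nd j' 1 := by
              rw [hμ, smul_add, X_smul_nd, X_smul_nd, Nat.sub_add_cancel he₁]
              abel
            rw [h4]
            refine V'.sub_mem hXμV (h3 1 le_rfl (by omega))
          · exact hVV' (halm j hj i hi (fun h h' => hji ⟨h, h'⟩))

lemma Reach.exists_fun {k : ℕ} {V : Submodule ℂ (Fin c → Polynomial ℂ)} (h : Reach e V₀ k V) :
    ∃ μ : Fin k → Fin c → Polynomial ℂ, (∀ v j, (μ v j).degree < e j) ∧
      V ≤ V₀ ⊔ (Submodule.span ℂ (Set.range fun v => (X : Polynomial ℂ) • μ v) ⊔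
        Submodule.span ℂ (Set.range μ)) := by
  induction h with
  | base => exact ⟨fun v => v.elim0, fun v => v.elim0, le_sup_left⟩
  | @step k V h μ hμ ih =>
    obtain ⟨μ', h1, h2⟩ := ih
    refine ⟨Fin.snoc (α := fun _ => Fin c → Polynomial ℂ) μ' μ, ?_, ?_⟩
    · intro v
      refine Fin.lastCases ?_ (fun v => ?_) v
      · rw [Fin.snoc_last]
        exact hμ
      · rw [Fin.snoc_castSucc]
        exact h1 v
    · refine sup_le (h2.trans (sup_le_sup le_rfl (sup_le_sup ?_ ?_))) ?_
      · rw [Submodule.span_le]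
        rintro _ ⟨v, rfl⟩
        apply Submodule.subset_span
        refine ⟨v.castSucc, ?_⟩
        simp only [Fin.snoc_castSucc]
      · rw [Submodule.span_le]
        rintro _ ⟨v, rfl⟩
        apply Submodule.subset_span
        refine ⟨v.castSucc, ?_⟩
        simp only [Fin.snoc_castSucc]
      · rw [Submodule.span_le]
        rintro x hx
        simp only [Set.mem_insert_iff, Set.mem_singleton_iff] at hx
        rcases hx with rfl | rfl
        · apply Submodule.mem_sup_right
          apply Submodule.mem_sup_right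
          apply Submodule.subset_span
          refine ⟨Fin.last k, ?_⟩
          simp only [Fin.snoc_last]
        · apply Submodule.mem_sup_right
          apply Submodule.mem_sup_left
          apply Submodule.subset_span
          refine ⟨Fin.last k, ?_⟩
          simp only [Fin.snoc_last]

/-- **Multipliers.** -/
theorem exists_multipliers (he : ∀ j, 1 ≤ e j) (j₀ : Fin c) (γ : ℕ) (hγ : γ + 1 ≤ e j₀)
    (m : ℕ) (hm : ∑ j, (e j + 1) ≤ 2 * m + γ + 2) :
    ∃ (μ : Fin m → Fin c → Polynomial ℂ) (Θ : Fin (γ + 2) → Fin c → ℕ → ℂ)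
      (A B : Fin m → Fin c → ℕ → ℂ), (∀ v j, (μ v j).degree < e j) ∧
      ∀ j i, i ≤ e j → nd j i = ∑ a, Θ a j i • nd j₀ a +
        (∑ v, A v j i • ((X : Polynomial ℂ) • μ v) + ∑ v, B v j i • μ v) := by
  classical
  set V₀ : Submodule ℂ (Fin c → Polynomial ℂ) :=
    Submodule.span ℂ (Set.range fun a : Fin (γ + 2) => nd j₀ (a : ℕ)) with hV₀
  obtain ⟨k, V, hR, hcase⟩ := states (V₀ := V₀) he j₀ γ hγ
    (fun a ha => Submodule.subset_span ⟨⟨a, ha⟩, rfl⟩) (Finset.univ.erase j₀) (by simp)
  rw [Finset.insert_erase (Finset.mem_univ _)] at hcase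
  obtain ⟨k', V', hR', hk', hfull⟩ : ∃ k' V', Reach e V₀ k' V' ∧ k' ≤ m ∧
      ∀ j, ∀ i, i ≤ e j → nd j i ∈ V' := by
    rcases hcase with ⟨hfull, hk⟩ | ⟨j₁, -, halm, hk⟩
    · exact ⟨k, V, hR, by omega, fun j i hi => hfull j (Finset.mem_univ _) i hi⟩
    · have he₁ := he j₁
      refine ⟨k + 1, _, hR.step (nd j₁ (e j₁ - 1)) (degree_nd (by omega)), by omega, ?_⟩
      intro j i hi
      by_cases hji : j = j₁ ∧ i = e j
      · obtain ⟨rfl, rfl⟩ := hji
        apply Submodule.mem_sup_right
        rw [X_smul_nd, Nat.sub_add_cancel he₁]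
        exact Submodule.subset_span (by simp)
      · exact Submodule.mem_sup_left (halm j (Finset.mem_univ _) i hi
          (fun h h' => hji ⟨h, h'⟩))
  obtain ⟨V'', hR'', hVV⟩ := hR'.mono m hk'
  obtain ⟨μ, hμ, hspan⟩ := hR''.exists_fun
  have key : ∀ j i, i ≤ e j → ∃ (θ : Fin (γ + 2) → ℂ) (a b : Fin m → ℂ),
      nd j i = ∑ x, θ x • nd j₀ x + (∑ v, a v • ((X : Polynomial ℂ) • μ v) + ∑ v, b v • μ v) := by
    intro j i hi
    have h1 := hspan (hVV (hfull j i hi))
    rw [Submodule.mem_sup] at h1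
    obtain ⟨y, hy, z, hz, hyz⟩ := h1
    rw [Submodule.mem_sup] at hz
    obtain ⟨z1, hz1, z2, hz2, hz12⟩ := hz
    rw [hV₀, Submodule.mem_span_range_iff_exists_fun] at hy
    rw [Submodule.mem_span_range_iff_exists_fun] at hz1 hz2
    obtain ⟨θ, hθ⟩ := hy
    obtain ⟨a, ha⟩ := hz1
    obtain ⟨b, hb⟩ := hz2
    exact ⟨θ, a, b, by rw [hθ, ha, hb, hz12, hyz]⟩
  choose! Θ A B hkey using key
  exact ⟨μ, fun x j i => Θ j i x, fun v j i => A j i v, fun v j i => B j i v, hμ, hkey⟩

end Pool.Agent.H50.Lang
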