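import Mathlib
import Pool.Agent.H50.Lang.Span
import Pool.Agent.H86.Refl.Lines
import Pool.Agent.H86.Refl.Jac

/-!
# A special system on a line

On the curve `x = (t, 1, α_v t + β_v)`, `y = g(t) l(t) ^ p`, with `deg g ≤ γ`, `deg l ≤ 1`, in the
weighted projective space `P(1, …, 1, γ + p)` a certain system of equations of degrees `e_j` is
nondegenerate, if `∑ (e_j + 1) ≤ 2 m + γ + 2`.
-/

set_option autoImplicit false

namespace Pool.Agent.H50.Lang

open Pool.Agent.H86.Refl

/-- The combinatorial data of the special system. -/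
structure Sys (c m γ p : ℕ) (e : Fin c → ℕ) where
  j₀ : Fin c
  μ : Fin m → Fin c → Polynomial ℂ
  Θ : Fin (γ + 2) → Fin c → ℕ → ℂ
  A : Fin m → Fin c → ℕ → ℂ
  B : Fin m → Fin c → ℕ → ℂ
  hμ : ∀ v j, (μ v j).degree < e j
  hp : γ + p ≤ e j₀
  p0 : p ≠ 0
  span : ∀ j i, i ≤ e j → nd j i = ∑ a, Θ a j i • nd j₀ a +
    (∑ v, A v j i • ((Polynomial.X : Polynomial ℂ) • μ v) + ∑ v, B v j i • μ v)

lemma exists_sys {c m γ p : ℕ} {e : Fin c → ℕ} (he : ∀ j, 1 ≤ e j) (j₀ : Fin c) (p0 : p ≠ 0)
    (hp : γ + p ≤ e j₀) (hm : ∑ j, (e j + 1) ≤ 2 * m + γ + 2) : Nonempty (Sys c m γ p e) := by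
  obtain ⟨μ, Θ, A, B, hμ, h⟩ := exists_multipliers he j₀ γ (by omega) m hm
  exact ⟨⟨j₀, μ, Θ, A, B, hμ, hp, p0, h⟩⟩

section Curve

variable {c m γ p : ℕ} {e : Fin c → ℕ} {R : Type*} [CommRing R] [Algebra ℂ R]

/-- A linear form in the unknowns. -/
noncomputable def lin (L : Fin c → ℕ → ℂ) (z : (Σ j : Fin c, Fin (e j + 1)) → R) : R :=
  ∑ u, algebraMap ℂ R (L u.1 u.2) * z u

lemma map_lin {R' : Type*} [CommRing R'] [Algebra ℂ R'] (φ : R →ₐ[ℂ] R') (L : Fin c → ℕ → ℂ)
    (z : (Σ j : Fin c, Fin (e j + 1)) → R) : φ (lin L z) = lin L (fun u => φ (z u)) := by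
  unfold lin
  rw [map_sum]
  simp only [map_mul, AlgHom.commutes]

lemma lin_mul (L L' : Fin c → ℕ → ℂ) (z : (Σ j : Fin c, Fin (e j + 1)) → R)
    (hz : ∀ u u', z u * z u' = 0) : lin L z * lin L' z = 0 := by
  unfold lin
  rw [Finset.sum_mul_sum]
  refine Finset.sum_eq_zero fun u _ => Finset.sum_eq_zero fun u' _ => ?_
  rw [mul_mul_mul_comm, hz, mul_zero]

variable (S : Sys c m γ p e)

/-- The factor `g`. -/
noncomputable def gP (z : (Σ j : Fin c, Fin (e j + 1)) → R) : Polynomial R :=
  Polynomial.X ^ γ + ∑ a : Fin (γ + 1), Polynomial.C (lin (S.Θ a.castSucc) z) *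
    Polynomial.X ^ (a : ℕ)

/-- The factor `l`. -/
noncomputable def lP (z : (Σ j : Fin c, Fin (e j + 1)) → R) : Polynomial R :=
  1 + Polynomial.C (algebraMap ℂ R (1 / p) * lin (S.Θ (Fin.last (γ + 1))) z) * Polynomial.X

/-- The coordinates `x`. -/
noncomputable def xP (z : (Σ j : Fin c, Fin (e j + 1)) → R) : Fin (m + 2) → Polynomial R :=
  Fin.cons Polynomial.X (Fin.cons 1 fun v => Polynomial.C (lin (S.A v) z) * Polynomial.X +
    Polynomial.C (lin (S.B v) z))

lemma xP_zero (z : (Σ j : Fin c, Fin (e j + 1)) → R) : xP S z 0 = Polynomial.X := rfl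

lemma xP_one (z : (Σ j : Fin c, Fin (e j + 1)) → R) : xP S z 1 = 1 := rfl

lemma xP_succ (z : (Σ j : Fin c, Fin (e j + 1)) → R) (v : Fin m) :
    xP S z v.succ.succ = Polynomial.C (lin (S.A v) z) * Polynomial.X +
      Polynomial.C (lin (S.B v) z) := rfl

lemma cases2 (i : Fin (m + 2)) : i = 0 ∨ i = 1 ∨ ∃ v : Fin m, i = v.succ.succ := by
  refine Fin.cases (Or.inl rfl) (fun i => ?_) i
  refine Fin.cases (Or.inr (Or.inl rfl)) (fun i => ?_) i
  exact Or.inr (Or.inr ⟨i, rfl⟩)

/-- The curve. -/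
noncomputable def curve (z : (Σ j : Fin c, Fin (e j + 1)) → R) :
    Fin (m + 2 + 1) → Polynomial R :=
  Fin.snoc (xP S z) (gP S z * lP S z ^ p)

lemma map_curve {R' : Type*} [CommRing R'] [Algebra ℂ R'] (φ : R →ₐ[ℂ] R')
    (z : (Σ j : Fin c, Fin (e j + 1)) → R) (i : Fin (m + 2 + 1)) :
    (curve S z i).map (φ : R →+* R') = curve S (fun u => φ (z u)) i := by
  have hC : ∀ L, (φ : R →+* R') (lin L z) = lin L (fun u => φ (z u)) := fun L => map_lin φ L z
  have hc : (φ : R →+* R') (algebraMap ℂ R (1 / p)) = algebraMap ℂ R' (1 / p) := φ.commutes _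
  unfold curve
  refine Fin.lastCases ?_ (fun i => ?_) i
  · simp only [Fin.snoc_last, gP, lP, Polynomial.map_mul, Polynomial.map_pow, Polynomial.map_add,
      Polynomial.map_sum, Polynomial.map_X, Polynomial.map_C, Polynomial.map_one, hC, hc,
      (φ : R →+* R').map_mul]
  · simp only [Fin.snoc_castSucc]
    rcases cases2 i with rfl | rfl | ⟨v, rfl⟩
    · simp [xP_zero]
    · simp [xP_one]
    · simp only [xP_succ, Polynomial.map_add, Polynomial.map_mul, Polynomial.map_C,
        Polynomial.map_X, hC]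

lemma natDegree_gP (z : (Σ j : Fin c, Fin (e j + 1)) → R) : (gP S z).natDegree ≤ γ := by
  unfold gP
  refine (Polynomial.natDegree_add_le _ _).trans (max_le (Polynomial.natDegree_X_pow_le _) ?_)
  refine Polynomial.natDegree_sum_le_of_forall_le _ _ fun a _ => ?_
  refine (Polynomial.natDegree_C_mul_X_pow_le _ _).trans ?_
  have := a.2
  omega

lemma natDegree_lP (z : (Σ j : Fin c, Fin (e j + 1)) → R) : (lP S z).natDegree ≤ 1 := by
  unfold lP
  refine (Polynomial.natDegree_add_le _ _).trans (max_le (by simp) ?_)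
  exact (Polynomial.natDegree_C_mul_le _ _).trans Polynomial.natDegree_X_le

lemma natDegree_curve (z : (Σ j : Fin c, Fin (e j + 1)) → R) (i : Fin (m + 2 + 1)) :
    (curve S z i).natDegree ≤ 1 * wt (m + 2) (γ + p) i := by
  unfold curve
  refine Fin.lastCases ?_ (fun i => ?_) i
  · rw [Fin.snoc_last, wt_last, one_mul]
    refine Polynomial.natDegree_mul_le.trans (Nat.add_le_add (natDegree_gP S z) ?_)
    refine Polynomial.natDegree_pow_le.trans ?_
    have := Nat.mul_le_mul_left p (natDegree_lP S z)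
    omega
  · rw [Fin.snoc_castSucc, wt_castSucc, one_mul]
    rcases cases2 i with rfl | rfl | ⟨v, rfl⟩
    · rw [xP_zero]
      exact Polynomial.natDegree_X_le
    · rw [xP_one]
      simp
    · rw [xP_succ]
      refine (Polynomial.natDegree_add_le _ _).trans (max_le ?_ (by simp))
      exact (Polynomial.natDegree_C_mul_le _ _).trans Polynomial.natDegree_X_le

/-- The homogenisation of a polynomial in one variable. -/
noncomputable def hom2 (m d : ℕ) (Q : Polynomial ℂ) : MvPolynomial (Fin (m + 2 + 1)) ℂ :=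
  ∑ i ∈ Finset.range (d + 1), MvPolynomial.C (Q.coeff i) *
    (MvPolynomial.X (Fin.castSucc 0) ^ i * MvPolynomial.X (Fin.castSucc 1) ^ (d - i))

/-- The special forms. -/
noncomputable def F0 (j : Fin c) : MvPolynomial (Fin (m + 2 + 1)) ℂ :=
  (if j = S.j₀ then (MvPolynomial.X (Fin.last (m + 2)) -
      MvPolynomial.X (Fin.castSucc 0) ^ γ * MvPolynomial.X (Fin.castSucc 1) ^ p) *
      MvPolynomial.X (Fin.castSucc 1) ^ (e j - (γ + p)) else 0) +
    ∑ v : Fin m, MvPolynomial.X (v.succ.succ.castSucc) * hom2 m (e j - 1) (S.μ v j)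

/-- The special forms on the curve. -/
noncomputable def E0 (z : (Σ j : Fin c, Fin (e j + 1)) → R) (j : Fin c) : Polynomial R :=
  (if j = S.j₀ then gP S z * lP S z ^ p - Polynomial.X ^ γ else 0) +
    ∑ v : Fin m, (Polynomial.C (lin (S.A v) z) * Polynomial.X + Polynomial.C (lin (S.B v) z)) *
      (S.μ v j).map (algebraMap ℂ R)

lemma aeval_hom2 {d : ℕ} {Q : Polynomial ℂ} (hQ : Q.degree < (d + 1 : ℕ))
    (z : (Σ j : Fin c, Fin (e j + 1)) → R) :
    MvPolynomial.aeval (curve S z) (hom2 m d Q) = Q.map (algebraMap ℂ R) := by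
  have hQ' : Q.natDegree < d + 1 := by
    by_cases h : Q = 0
    · rw [h]
      simp
    · exact (Polynomial.natDegree_lt_iff_degree_lt h).mpr hQ
  have h0 : curve S z (Fin.castSucc 0) = Polynomial.X := by
    unfold curve
    rw [Fin.snoc_castSucc, xP_zero]
  have h1 : curve S z (Fin.castSucc 1) = 1 := by
    unfold curve
    rw [Fin.snoc_castSucc, xP_one]
  unfold hom2
  conv_rhs => rw [Q.as_sum_range' (d + 1) hQ', Polynomial.map_sum]
  rw [map_sum]
  refine Finset.sum_congr rfl fun i _ => ?_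
  rw [map_mul, map_mul, map_pow, map_pow, MvPolynomial.aeval_X, MvPolynomial.aeval_X, h0, h1,
    one_pow, mul_one, ← MvPolynomial.algebraMap_eq, AlgHom.commutes, Polynomial.map_monomial,
    Polynomial.algebraMap_apply, Polynomial.C_mul_X_pow_eq_monomial]

lemma aeval_F0 (he : ∀ j, 1 ≤ e j) (z : (Σ j : Fin c, Fin (e j + 1)) → R) (j : Fin c) :
    MvPolynomial.aeval (curve S z) (F0 S j) = E0 S z j := by
  have h0 : curve S z (Fin.castSucc 0) = Polynomial.X := by
    unfold curve
    rw [Fin.snoc_castSucc, xP_zero]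
  have h1 : curve S z (Fin.castSucc 1) = 1 := by
    unfold curve
    rw [Fin.snoc_castSucc, xP_one]
  have hl : curve S z (Fin.last (m + 2)) = gP S z * lP S z ^ p := by
    unfold curve
    rw [Fin.snoc_last]
  have hv : ∀ v : Fin m, curve S z (v.succ.succ.castSucc) =
      Polynomial.C (lin (S.A v) z) * Polynomial.X + Polynomial.C (lin (S.B v) z) := by
    intro v
    unfold curve
    rw [Fin.snoc_castSucc, xP_succ]
  unfold F0 E0
  rw [map_add, map_sum]
  congr 1
  · split_ifs
    · simp only [map_mul, map_sub, map_pow, MvPolynomial.aeval_X, h0, h1, hl, one_pow, mul_one]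
    · rw [map_zero]
  · refine Finset.sum_congr rfl fun v _ => ?_
    rw [map_mul, MvPolynomial.aeval_X, hv, aeval_hom2 S]
    rw [Nat.sub_add_cancel (he j)]
    exact S.hμ v j

lemma isWeightedHomogeneous_hom2 {m r : ℕ} (d : ℕ) (Q : Polynomial ℂ) :
    (hom2 m d Q).IsWeightedHomogeneous (wt (m + 2) r) d := by
  rw [← MvPolynomial.mem_weightedHomogeneousSubmodule, hom2]
  apply Submodule.sum_mem
  intro i hi
  rw [MvPolynomial.mem_weightedHomogeneousSubmodule]
  have hi' : i ≤ d := Nat.lt_succ_iff.mp (Finset.mem_range.mp hi)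
  have hX : ∀ (i : Fin (m + 2)) (k : ℕ), (MvPolynomial.X i.castSucc ^ k :
      MvPolynomial (Fin (m + 2 + 1)) ℂ).IsWeightedHomogeneous (wt (m + 2) r) k := by
    intro i k
    have h1 := (MvPolynomial.isWeightedHomogeneous_X ℂ (wt (m + 2) r) i.castSucc).pow k
    rw [wt_castSucc, smul_eq_mul, mul_one] at h1
    exact h1
  have h1 := (MvPolynomial.isWeightedHomogeneous_C (wt (m + 2) r) (Q.coeff i)).mul
    ((hX 0 i).mul (hX 1 (d - i)))
  rw [zero_add, Nat.add_sub_cancel' hi'] at h1
  exact h1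

lemma isWeightedHomogeneous_F0 (he : ∀ j, 1 ≤ e j) (j : Fin c) :
    (F0 S j).IsWeightedHomogeneous (wt (m + 2) (γ + p)) (e j) := by
  have hX : ∀ (i : Fin (m + 2)) (k : ℕ), (MvPolynomial.X i.castSucc ^ k :
      MvPolynomial (Fin (m + 2 + 1)) ℂ).IsWeightedHomogeneous (wt (m + 2) (γ + p)) k := by
    intro i k
    have h1 := (MvPolynomial.isWeightedHomogeneous_X ℂ (wt (m + 2) (γ + p)) i.castSucc).pow k
    rw [wt_castSucc, smul_eq_mul, mul_one] at h1
    exact h1
  have hL : (MvPolynomial.X (Fin.last (m + 2)) :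
      MvPolynomial (Fin (m + 2 + 1)) ℂ).IsWeightedHomogeneous (wt (m + 2) (γ + p)) (γ + p) := by
    have h1 := MvPolynomial.isWeightedHomogeneous_X ℂ (wt (m + 2) (γ + p)) (Fin.last (m + 2))
    rw [wt_last] at h1
    exact h1
  rw [← MvPolynomial.mem_weightedHomogeneousSubmodule, F0]
  apply Submodule.add_mem
  · split_ifs with h
    · have h1 : (MvPolynomial.X (Fin.last (m + 2)) -
          MvPolynomial.X (Fin.castSucc 0) ^ γ * MvPolynomial.X (Fin.castSucc 1) ^ p :
          MvPolynomial (Fin (m + 2 + 1)) ℂ).IsWeightedHomogeneous (wt (m + 2) (γ + p))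
          (γ + p) := by
        rw [← MvPolynomial.mem_weightedHomogeneousSubmodule]
        apply Submodule.sub_mem
        · rw [MvPolynomial.mem_weightedHomogeneousSubmodule]
          exact hL
        · rw [MvPolynomial.mem_weightedHomogeneousSubmodule]
          exact (hX 0 γ).mul (hX 1 p)
      rw [MvPolynomial.mem_weightedHomogeneousSubmodule]
      have h2 := h1.mul (hX 1 (e j - (γ + p)))
      have h3 := S.hp
      rw [← h] at h3
      rw [Nat.add_sub_cancel' h3] at h2
      exact h2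
    · exact Submodule.zero_mem _
  · apply Submodule.sum_mem
    intro v _
    rw [MvPolynomial.mem_weightedHomogeneousSubmodule]
    have h1 := (hX v.succ.succ 1).mul
      (isWeightedHomogeneous_hom2 (m := m) (r := γ + p) (e j - 1) (S.μ v j))
    rw [pow_one, Nat.add_sub_cancel' (he j)] at h1
    exact h1

/-- Linearisation. -/
lemma E0_nil (z : (Σ j : Fin c, Fin (e j + 1)) → R) (hz : ∀ u u', z u * z u' = 0) (j : Fin c) :
    E0 S z j = ∑ u, Polynomial.C (z u) * (nd u.1 u.2 j).map (algebraMap ℂ R) := by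
  have hC : ∀ L L' : Fin c → ℕ → ℂ, (Polynomial.C (lin L z) : Polynomial R) *
      Polynomial.C (lin L' z) = 0 := by
    intro L L'
    rw [← Polynomial.C_mul, lin_mul L L' z hz, Polynomial.C_0]
  set T := S.Θ (Fin.last (γ + 1)) with hT
  have hl : ∀ k : ℕ, lP S z ^ k = 1 + Polynomial.C (algebraMap ℂ R (k / p) * lin T z) *
      Polynomial.X := by
    intro k
    induction k with
    | zero => simp
    | succ k ih =>
      rw [pow_succ, ih]
      unfold lP
      rw [← hT]
      simp only [Polynomial.C_mul]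
      have h1 : (algebraMap ℂ R (((k + 1 : ℕ) : ℂ) / p)) = algebraMap ℂ R (k / p) +
          algebraMap ℂ R (1 / p) := by
        rw [← map_add]
        congr 1
        push_cast
        ring
      rw [h1, Polynomial.C_add]
      linear_combination (Polynomial.C (algebraMap ℂ R (k / p)) *
        Polynomial.C (algebraMap ℂ R (1 / p)) * Polynomial.X ^ 2) * hC T T
  have hg : gP S z * lP S z ^ p - Polynomial.X ^ γ =
      ∑ a : Fin (γ + 2), Polynomial.C (lin (S.Θ a) z) * Polynomial.X ^ (a : ℕ) := by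
    have hpp : (p : ℂ) / p = 1 := div_self (by exact_mod_cast S.p0)
    rw [hl p, hpp, map_one, one_mul, Fin.sum_univ_castSucc]
    unfold gP
    have h2 : (∑ a : Fin (γ + 1), Polynomial.C (lin (S.Θ a.castSucc) z) *
        Polynomial.X ^ (a : ℕ)) * Polynomial.C (lin T z) = 0 := by
      rw [Finset.sum_mul]
      refine Finset.sum_eq_zero fun a _ => ?_
      rw [mul_right_comm, hC, zero_mul]
    simp only [Fin.val_castSucc, Fin.val_last]
    rw [pow_succ (Polynomial.X : Polynomial R) γ]
    linear_combination Polynomial.X * h2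
  have hrhs : ∀ u : Σ j : Fin c, Fin (e j + 1), Polynomial.C (z u) *
      (nd u.1 u.2 j).map (algebraMap ℂ R) =
      (∑ a : Fin (γ + 2), Polynomial.C (algebraMap ℂ R (S.Θ a u.1 u.2) * z u) *
        (nd S.j₀ a j).map (algebraMap ℂ R) +
      (∑ v, Polynomial.C (algebraMap ℂ R (S.A v u.1 u.2) * z u) *
        (Polynomial.X * (S.μ v j).map (algebraMap ℂ R)) +
      ∑ v, Polynomial.C (algebraMap ℂ R (S.B v u.1 u.2) * z u) *
        (S.μ v j).map (algebraMap ℂ R))) := by
    intro u
    rw [S.span u.1 u.2 (Nat.lt_succ_iff.mp u.2.2)]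
    simp only [Pi.add_apply, Finset.sum_apply, Pi.smul_apply, smul_eq_mul, Polynomial.map_add,
      Polynomial.map_sum, Polynomial.smul_eq_C_mul, Polynomial.map_mul, Polynomial.map_C,
      Polynomial.map_X, mul_add, Finset.mul_sum, Polynomial.C_mul]
    congr 1
    · refine Finset.sum_congr rfl fun a _ => by ring
    · congr 1
      · refine Finset.sum_congr rfl fun a _ => by ring
      · refine Finset.sum_congr rfl fun a _ => by ring
  have hlin : ∀ L : Fin c → ℕ → ℂ, (Polynomial.C (lin L z) : Polynomial R) =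
      ∑ u : Σ j : Fin c, Fin (e j + 1), Polynomial.C (algebraMap ℂ R (L u.1 u.2) * z u) := by
    intro L
    unfold lin
    rw [map_sum]
  rw [Finset.sum_congr rfl fun u _ => hrhs u, Finset.sum_add_distrib, Finset.sum_add_distrib]
  rw [Finset.sum_comm, Finset.sum_comm (f := fun (u : Σ j : Fin c, Fin (e j + 1)) v =>
      Polynomial.C (algebraMap ℂ R (S.A v u.1 u.2) * z u) *
        (Polynomial.X * (S.μ v j).map (algebraMap ℂ R))),
    Finset.sum_comm (f := fun (u : Σ j : Fin c, Fin (e j + 1)) v =>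
      Polynomial.C (algebraMap ℂ R (S.B v u.1 u.2) * z u) *
        (S.μ v j).map (algebraMap ℂ R))]
  simp only [← Finset.sum_mul, ← hlin]
  unfold E0
  congr 1
  · rw [hg]
    unfold nd
    by_cases hj : j = S.j₀
    · rw [if_pos hj, hj]
      simp only [Pi.single_eq_same, Polynomial.map_pow, Polynomial.map_X]
    · rw [if_neg hj]
      symm
      refine Finset.sum_eq_zero fun a _ => ?_
      rw [Pi.single_eq_of_ne hj, Polynomial.map_zero, mul_zero]
  · rw [← Finset.sum_add_distrib]
    refine Finset.sum_congr rfl fun v _ => by ring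

lemma coeff_E0_nil (z : (Σ j : Fin c, Fin (e j + 1)) → R) (hz : ∀ u u', z u * z u' = 0)
    (u : Σ j : Fin c, Fin (e j + 1)) : (E0 S z u.1).coeff u.2 = z u := by
  rw [E0_nil S z hz, Polynomial.finsetSum_coeff, Finset.sum_eq_single u]
  · unfold nd
    rw [Pi.single_eq_same, Polynomial.map_pow, Polynomial.map_X, Polynomial.coeff_C_mul,
      Polynomial.coeff_X_pow, if_pos rfl, mul_one]
  · intro u' _ hu'
    unfold nd
    rw [Polynomial.coeff_C_mul]
    by_cases h : u.1 = u'.1
    · obtain ⟨u1, u2⟩ := u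
      obtain ⟨v1, v2⟩ := u'
      simp only at h
      subst h
      simp only
      rw [Pi.single_eq_same, Polynomial.map_pow, Polynomial.map_X, Polynomial.coeff_X_pow,
        if_neg, mul_zero]
      intro h2
      apply hu'
      rw [Fin.ext h2]
    · rw [Pi.single_eq_of_ne h, Polynomial.map_zero, Polynomial.coeff_zero, mul_zero]
  · intro h
    exact absurd (Finset.mem_univ _) h

end Curve

/-- **The system.**  For all but countably many members of the pencil there is a curve. -/
theorem countable_special {c m γ p : ℕ} {e : Fin c → ℕ} (he : ∀ j, 1 ≤ e j) (S : Sys c m γ p e)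
    (F : Fin c → MvPolynomial (Fin (m + 2 + 1)) ℂ)
    (hF : ∀ j, (F j).IsWeightedHomogeneous (wt (m + 2) (γ + p)) (e j)) :
    Set.Countable {s : ℂ | ¬ ∃ z : (Σ j : Fin c, Fin (e j + 1)) → ℂ, ∀ j,
      MvPolynomial.aeval (curve S z) ((1 - s) • F0 S j + s • F j) = 0} := by
  classical
  set M := Fintype.card (Σ j : Fin c, Fin (e j + 1)) with hM
  let ν : (Σ j : Fin c, Fin (e j + 1)) ≃ Fin M := Fintype.equivFin _
  let Z : (Σ j : Fin c, Fin (e j + 1)) → MvPolynomial (Option (Fin M)) ℂ :=
    fun u => MvPolynomial.X (some (ν u))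
  let Pol : Fin c → Polynomial (MvPolynomial (Option (Fin M)) ℂ) := fun j =>
    Polynomial.C (1 - MvPolynomial.X none) * E0 S Z j +
      Polynomial.C (MvPolynomial.X none) * MvPolynomial.aeval (curve S Z) (F j)
  have hmap : ∀ (A : Type) [CommRing A] [Algebra ℂ A]
      (φ : MvPolynomial (Option (Fin M)) ℂ →ₐ[ℂ] A) (j : Fin c),
      (Pol j).map (φ : MvPolynomial (Option (Fin M)) ℂ →+* A) =
        Polynomial.C (1 - φ (MvPolynomial.X none)) * E0 S (fun u => φ (Z u)) j +
        Polynomial.C (φ (MvPolynomial.X none)) *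
          MvPolynomial.aeval (curve S (fun u => φ (Z u))) (F j) := by
    intro A _ _ φ j
    have h0 : (E0 S Z j).map (φ : MvPolynomial (Option (Fin M)) ℂ →+* A) =
        E0 S (fun u => φ (Z u)) j := by
      rw [← aeval_F0 S he, ← aeval_F0 S he, map_aeval]
      congr 2
      funext i
      rw [map_curve]
    simp only [Pol, Polynomial.map_add, Polynomial.map_mul, Polynomial.map_C, h0, map_aeval]
    have h1 : (fun i => (curve S Z i).map (φ : MvPolynomial (Option (Fin M)) ℂ →+* A)) =
        curve S (fun u => φ (Z u)) := by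
      funext i
      rw [map_curve]
    rw [h1]
    simp
  let E : Fin M → MvPolynomial (Option (Fin M)) ℂ := fun i =>
    (Pol (ν.symm i).1).coeff (ν.symm i).2
  have hEv : ∀ (A : Type) [CommRing A] [Algebra ℂ A]
      (φ : MvPolynomial (Option (Fin M)) ℂ →ₐ[ℂ] A) (u : Σ j : Fin c, Fin (e j + 1)),
      φ (E (ν u)) = ((Pol u.1).map
        (φ : MvPolynomial (Option (Fin M)) ℂ →+* A)).coeff u.2 := by
    intro A _ _ φ u
    have h1 : E (ν u) = (Pol u.1).coeff u.2 := by
      show (Pol (ν.symm (ν u)).1).coeff (ν.symm (ν u)).2 = _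
      rw [Equiv.symm_apply_apply]
    rw [Polynomial.coeff_map, h1]
    rfl
  have heval : ∀ y : Option (Fin M) → ℂ, ((MvPolynomial.aeval y :
      MvPolynomial (Option (Fin M)) ℂ →ₐ[ℂ] ℂ) :
      MvPolynomial (Option (Fin M)) ℂ →+* ℂ) = MvPolynomial.eval y := by
    intro y
    ext <;> simp
  refine (Pool.Agent.H84.countable_bad E ?_ (jac_of_test E ?_)).mono ?_
  · -- vanishing at the origin
    intro i
    obtain ⟨u, rfl⟩ := ν.surjective i
    have h1 := hEv ℂ (MvPolynomial.aeval 0) u
    rw [hmap] at h1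
    have h2 : ∀ a, (MvPolynomial.aeval (0 : Option (Fin M) → ℂ) :
        MvPolynomial (Option (Fin M)) ℂ →ₐ[ℂ] ℂ) a = MvPolynomial.eval 0 a :=
      fun a => by rw [← heval]; rfl
    rw [h2] at h1
    rw [h1]
    have h3 : (MvPolynomial.aeval (0 : Option (Fin M) → ℂ) :
        MvPolynomial (Option (Fin M)) ℂ →ₐ[ℂ] ℂ) (MvPolynomial.X none) = 0 := by simp
    have h4 : ∀ u, (MvPolynomial.aeval (0 : Option (Fin M) → ℂ) :
        MvPolynomial (Option (Fin M)) ℂ →ₐ[ℂ] ℂ) (Z u) = 0 := by
      intro u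
      simp [Z]
    simp only [h3, h4, sub_zero, Polynomial.C_1, one_mul, Polynomial.C_0, zero_mul, add_zero]
    exact coeff_E0_nil (R := ℂ) S (fun _ => 0) (by simp) u
  · intro A _ _ ψ hψ0 hψ2 hψE i
    obtain ⟨u, rfl⟩ := ν.surjective i
    have h1 := hEv A ψ u
    rw [hψE, hmap, hψ0] at h1
    simp only [sub_zero, Polynomial.C_1, one_mul, Polynomial.C_0, zero_mul, add_zero] at h1
    rw [coeff_E0_nil (R := A) S (fun u => ψ (Z u)) (fun u u' => hψ2 _ _)] at h1
    exact h1.symm
  · intro s hs hcon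
    apply hs
    obtain ⟨y, hys, hy⟩ := hcon
    refine ⟨fun u => y (some (ν u)), fun j => ?_⟩
    have h1 := hmap ℂ (MvPolynomial.aeval y) j
    have h3 : (MvPolynomial.aeval y : MvPolynomial (Option (Fin M)) ℂ →ₐ[ℂ] ℂ)
        (MvPolynomial.X none) = s := by
      rw [MvPolynomial.aeval_X, hys]
    have h4 : ∀ u, (MvPolynomial.aeval y : MvPolynomial (Option (Fin M)) ℂ →ₐ[ℂ] ℂ) (Z u) =
        y (some (ν u)) := by
      intro u
      simp [Z]
    simp only [h3, h4] at h1
    have h5 : MvPolynomial.aeval (curve S fun u => y (some (ν u))) ((1 - s) • F0 S j + s • F j) =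
        (Pol j).map ((MvPolynomial.aeval y : MvPolynomial (Option (Fin M)) ℂ →ₐ[ℂ] ℂ) :
          MvPolynomial (Option (Fin M)) ℂ →+* ℂ) := by
      rw [h1, map_add, map_smul, map_smul, aeval_F0 S he, Polynomial.smul_eq_C_mul,
        Polynomial.smul_eq_C_mul]
    rw [h5]
    ext i
    rw [Polynomial.coeff_zero]
    by_cases hie : i ≤ e j
    · have h6 := hEv ℂ (MvPolynomial.aeval y) ⟨j, ⟨i, by omega⟩⟩
      rw [← h6]
      have h8 := hy (ν ⟨j, ⟨i, by omega⟩⟩)
      rw [← heval] at h8
      exact h8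
    · rw [← h5]
      apply Polynomial.coeff_eq_zero_of_natDegree_lt
      have hw : ((1 - s) • F0 S j + s • F j).IsWeightedHomogeneous (wt (m + 2) (γ + p)) (e j) := by
        rw [← MvPolynomial.mem_weightedHomogeneousSubmodule]
        apply Submodule.add_mem
        · apply Submodule.smul_mem
          rw [MvPolynomial.mem_weightedHomogeneousSubmodule]
          exact isWeightedHomogeneous_F0 S he j
        · apply Submodule.smul_mem
          rw [MvPolynomial.mem_weightedHomogeneousSubmodule]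
          exact hF j
      refine lt_of_le_of_lt (natDegree_aeval_le hw _ (natDegree_curve S _)) (by omega)

end Pool.Agent.H50.Lang
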