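import Mathlib
import Pool.Agent.H50.Lang.System
import Pool.Agent.H84.LineLimit
import Pool.Agent.H86.Refl.Limit

/-!
# Limits of the curves over lines
-/

set_option autoImplicit false

namespace Pool.Agent.H50.Lang

open MvPolynomial Pool.Agent.H84 Pool.Agent.H86.Refl Matrix

/-- The point of the curve with the data `q`. -/
def pt {N γ : ℕ} (p : ℕ) (q : LineSpace N 0 γ 1) (s t : ℂ) : Fin (N + 1) → ℂ :=
  Fin.snoc (fun i => q.2.2.2.2.2.1 * (t • q.1 + s • q.2.1) i)
    (q.2.2.2.2.2.2 * (bform q.2.2.2.1 s t * bform q.2.2.2.2.1 s t ^ p))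

/-- The polynomials vanish on some normalised curve. -/
def GoodC {N c : ℕ} (γ p : ℕ) (F : Fin c → MvPolynomial (Fin (N + 1)) ℂ) : Prop :=
  ∃ q ∈ normalised N 0 γ 1, ∀ (j : Fin c) (s t : ℂ), eval (pt p q s t) (F j) = 0

lemma continuous_pt {N γ : ℕ} (p : ℕ) (s t : ℂ) :
    Continuous fun q : LineSpace N 0 γ 1 => pt p q s t := by
  apply continuous_pi
  intro i
  unfold pt
  refine Fin.lastCases ?_ (fun i => ?_) i
  · simp only [Fin.snoc_last]
    have h1 : Continuous fun q : LineSpace N 0 γ 1 => bform q.2.2.2.1 s t :=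
      continuous_bform (by fun_prop) s t
    have h2 : Continuous fun q : LineSpace N 0 γ 1 => bform q.2.2.2.2.1 s t :=
      continuous_bform (by fun_prop) s t
    fun_prop
  · simp only [Fin.snoc_castSucc, Pi.add_apply, Pi.smul_apply, smul_eq_mul]
    fun_prop

lemma isClosed_goodC {N c : ℕ} (γ p : ℕ) (F₀ F₁ : Fin c → MvPolynomial (Fin (N + 1)) ℂ) :
    IsClosed {τ : ℂ | GoodC γ p (fun j => (1 - τ) • F₀ j + τ • F₁ j)} := by
  have : CompactSpace (normalised N 0 γ 1) :=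
    isCompact_iff_compactSpace.mp (isCompact_normalised N 0 γ 1)
  let T : Set (ℂ × normalised N 0 γ 1) := {x | ∀ (j : Fin c) (s t : ℂ),
    (1 - x.1) * eval (pt p x.2.1 s t) (F₀ j) + x.1 * eval (pt p x.2.1 s t) (F₁ j) = 0}
  have hT : IsClosed T := by
    have : T = ⋂ j : Fin c, ⋂ s : ℂ, ⋂ t : ℂ, {x | (1 - x.1) * eval (pt p x.2.1 s t) (F₀ j) +
        x.1 * eval (pt p x.2.1 s t) (F₁ j) = 0} := by
      ext x
      simp [T]
    rw [this]
    refine isClosed_iInter fun j => isClosed_iInter fun s => isClosed_iInter fun t =>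
      isClosed_eq ?_ continuous_const
    have h0 : Continuous fun x : ℂ × normalised N 0 γ 1 => pt p x.2.1 s t :=
      (continuous_pt p s t).comp (by fun_prop)
    have h1 := (MvPolynomial.continuous_eval (F₀ j)).comp h0
    have h2 := (MvPolynomial.continuous_eval (F₁ j)).comp h0
    simp only [Function.comp_def] at h1 h2
    fun_prop
  have himg := isClosedMap_fst_of_compactSpace (X := ℂ) (Y := normalised N 0 γ 1) T hT
  have heq : {τ : ℂ | GoodC γ p (fun j => (1 - τ) • F₀ j + τ • F₁ j)} = Prod.fst '' T := by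
    ext τ
    constructor
    · rintro ⟨q, hq, h⟩
      refine ⟨(τ, ⟨q, hq⟩), ?_, rfl⟩
      intro j s t
      have := h j s t
      rw [map_add, smul_eval, smul_eval] at this
      exact this
    · rintro ⟨⟨τ', q⟩, h, rfl⟩
      refine ⟨q.1, q.2, ?_⟩
      intro j s t
      have := h j s t
      rw [map_add, smul_eval, smul_eval]
      exact this
  rw [heq]
  exact himg

lemma goodC_of_countable {N c : ℕ} {γ p : ℕ} {F₀ F : Fin c → MvPolynomial (Fin (N + 1)) ℂ}
    (h : Set.Countable {τ : ℂ | ¬ GoodC γ p (fun j => (1 - τ) • F₀ j + τ • F j)}) :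
    GoodC γ p F := by
  have hdense : Dense ({τ : ℂ | ¬ GoodC γ p (fun j => (1 - τ) • F₀ j + τ • F j)}ᶜ) :=
    h.dense_compl ℂ
  have hclosed := isClosed_goodC γ p F₀ F
  have huniv : {τ : ℂ | GoodC γ p (fun j => (1 - τ) • F₀ j + τ • F j)} = Set.univ := by
    have h1 : {τ : ℂ | ¬ GoodC γ p (fun j => (1 - τ) • F₀ j + τ • F j)}ᶜ =
        {τ : ℂ | GoodC γ p (fun j => (1 - τ) • F₀ j + τ • F j)} := by
      ext τ
      simp
    rw [h1] at hdense
    rw [← hclosed.closure_eq, hdense.closure_eq]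
  have h1 : (1 : ℂ) ∈ {τ : ℂ | GoodC γ p (fun j => (1 - τ) • F₀ j + τ • F j)} := by
    rw [huniv]
    trivial
  have h2 : GoodC γ p (fun j => (1 - (1 : ℂ)) • F₀ j + (1 : ℂ) • F j) := h1
  simpa using h2

/-- Weighted homogeneity, for points `(x, y)`. -/
lemma eval_snoc_scale {N r e : ℕ} {F : MvPolynomial (Fin (N + 1)) ℂ}
    (hF : F.IsWeightedHomogeneous (wt N r) e) (l : ℂ) (x : Fin N → ℂ) (y : ℂ) :
    eval (Fin.snoc (l • x) (l ^ r * y) : Fin (N + 1) → ℂ) F =
      l ^ e * eval (Fin.snoc x y : Fin (N + 1) → ℂ) F := by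
  rw [← eval_scale hF]
  congr 2
  funext i
  refine Fin.lastCases ?_ (fun i => ?_) i
  · rw [Fin.snoc_last, Fin.snoc_last, wt_last]
  · rw [Fin.snoc_castSucc, Fin.snoc_castSucc, wt_castSucc, pow_one, Pi.smul_apply, smul_eq_mul]

lemma continuous_snoc_eval {N : ℕ} (F : MvPolynomial (Fin (N + 1)) ℂ) {f : ℂ → Fin N → ℂ}
    {g : ℂ → ℂ} (hf : Continuous f) (hg : Continuous g) :
    Continuous fun t => eval (Fin.snoc (f t) (g t) : Fin (N + 1) → ℂ) F := by
  have h1 : Continuous fun t => (Fin.snoc (f t) (g t) : Fin (N + 1) → ℂ) := by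
    apply continuous_pi
    intro i
    refine Fin.lastCases ?_ (fun i => ?_) i
    · simp only [Fin.snoc_last]
      exact hg
    · simp only [Fin.snoc_castSucc]
      exact (continuous_apply i).comp hf
  exact (MvPolynomial.continuous_eval F).comp h1

/-- A curve gives a normalised one. -/
lemma goodC_of_curve {N c γ p : ℕ} (hp : p ≠ 0) {e : Fin c → ℕ}
    {F : Fin c → MvPolynomial (Fin (N + 1)) ℂ}
    (hF : ∀ j, (F j).IsWeightedHomogeneous (wt N (γ + p)) (e j)) (x v : Fin N → ℂ)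
    (hind : ∀ α β : ℂ, α • x + β • v = 0 → α = 0 ∧ β = 0) (g l : Polynomial ℂ)
    (hg : g.natDegree ≤ γ) (hl : l.natDegree ≤ 1)
    (h : ∀ j s, eval (Fin.snoc (x + s • v) (g.eval s * l.eval s ^ p) : Fin (N + 1) → ℂ)
      (F j) = 0) : GoodC γ p F := by
  have hx : x ≠ 0 := by
    rintro rfl
    have := (hind 1 0 (by simp)).1
    exact one_ne_zero this
  obtain ⟨α, hα, hu₁⟩ := exists_normalize hx
  set u₁ := α • x with hu₁def
  set w := v - (star u₁ ⬝ᵥ v) • u₁ with hw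
  have hw0 : w ≠ 0 := by
    intro hw0
    have h1 : (-((star u₁ ⬝ᵥ v) * α)) • x + (1 : ℂ) • v = 0 := by
      rw [← hw0, hw, hu₁def, smul_smul, neg_smul, one_smul]
      abel
    exact one_ne_zero (hind _ _ h1).2
  obtain ⟨δ, hδ, hu₂⟩ := exists_normalize hw0
  set u₂ := δ • w with hu₂def
  have horth : star u₁ ⬝ᵥ u₂ = 0 := by
    rw [hu₂def, dotProduct_smul, hw, dotProduct_sub, dotProduct_smul, hu₁, smul_eq_mul,
      smul_eq_mul, mul_one, sub_self, mul_zero]
  -- the homogeneous identity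
  have hid : ∀ j s t, eval (Fin.snoc (t • x + s • v) (hform γ g s t * hform 1 l s t ^ p) :
      Fin (N + 1) → ℂ) (F j) = 0 := by
    intro j s t
    refine eq_of_ne (f := fun t => eval (Fin.snoc (t • x + s • v)
      (hform γ g s t * hform 1 l s t ^ p) : Fin (N + 1) → ℂ) (F j)) (g := fun _ => 0) ?_
      continuous_const ?_ t
    · exact continuous_snoc_eval _ (by fun_prop)
        ((continuous_hform _ _ _).mul ((continuous_hform _ _ _).pow p))
    · intro t ht
      have h1 : t • x + s • v = t • (x + (s / t) • v) := by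
        rw [smul_add, smul_smul, mul_div_cancel₀ _ ht]
      have h2 : hform γ g s t * hform 1 l s t ^ p =
          t ^ (γ + p) * (g.eval (s / t) * l.eval (s / t) ^ p) := by
        rw [hform_of_ne hg ht, hform_of_ne hl ht, pow_one, mul_pow, pow_add]
        ring
      simp only [h1, h2]
      rw [eval_snoc_scale (hF j), h, mul_zero]
  set β := -(δ * ((star u₁ ⬝ᵥ v) * α)) with hβ
  have hu₂' : u₂ = β • x + δ • v := by
    rw [hu₂def, hw, hu₁def, smul_sub, smul_smul, smul_smul, hβ, neg_smul, mul_assoc]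
    abel
  have hframe : ∀ s t : ℂ, t • u₁ + s • u₂ = (β * s + α * t) • x + (δ * s + 0 * t) • v := by
    intro s t
    rw [hu₂', hu₁def]
    module
  obtain ⟨g', hg', hg's⟩ := exists_subst γ g δ 0 β α
  obtain ⟨l', hl', hl's⟩ := exists_subst 1 l δ 0 β α
  obtain ⟨G₁, ν₁, hG₁, hG₁ν⟩ := exists_unit (fun i : Fin (γ + 1) => g'.coeff i)
  obtain ⟨G₂, ν₂, hG₂, hG₂ν⟩ := exists_unit (fun i : Fin (1 + 1) => l'.coeff i)
  set κ : ℂ := ν₁ * ν₂ ^ p with hκ
  have hval : ∀ j s t, eval (Fin.snoc (t • u₁ + s • u₂)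
      (κ * (bform G₁ s t * bform G₂ s t ^ p)) : Fin (N + 1) → ℂ) (F j) = 0 := by
    intro j s t
    have h1 := hid j (δ * s + 0 * t) (β * s + α * t)
    rw [← hframe, ← hg's, ← hl's, ← bform_coeff, ← bform_coeff, hG₁ν, hG₂ν, bform_smul,
      bform_smul] at h1
    rw [hκ, ← h1]
    congr 2
    ring_nf
  -- normalisation of the scalars
  obtain ⟨L, hL0, hL1⟩ := exists_scale (ι := Fin 2) ![1, γ + p] (by
    intro i
    fin_cases i
    · simp
    · simp [hp]) ![(1 : ℂ), κ] (by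
    intro h0
    exact one_ne_zero (congrFun h0 0))
  have hnorm : ‖((L : ℂ), (L : ℂ) ^ (γ + p) * κ)‖ = 1 := by
    rw [← hL1]
    apply le_antisymm
    · rw [Prod.norm_def]
      refine max_le ?_ ?_
      · have := norm_le_pi_norm (fun i => (L : ℂ) ^ (![1, γ + p] : Fin 2 → ℕ) i *
          (![(1 : ℂ), κ] : Fin 2 → ℂ) i) 0
        simpa using this
      · have := norm_le_pi_norm (fun i => (L : ℂ) ^ (![1, γ + p] : Fin 2 → ℕ) i *
          (![(1 : ℂ), κ] : Fin 2 → ℂ) i) 1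
        simpa using this
    · rw [pi_norm_le_iff_of_nonneg (norm_nonneg _)]
      intro i
      fin_cases i
      · have := norm_fst_le ((L : ℂ), (L : ℂ) ^ (γ + p) * κ)
        simpa using this
      · have := norm_snd_le ((L : ℂ), (L : ℂ) ^ (γ + p) * κ)
        simpa using this
  refine ⟨(u₁, u₂, fun _ => 1, G₁, G₂, ((L : ℂ), (L : ℂ) ^ (γ + p) * κ)),
    ⟨hu₁, hu₂, horth, ?_, hG₁, hG₂, hnorm⟩, ?_⟩
  · rw [pi_norm_const]
    simp
  · intro j s t
    have h1 := eval_snoc_scale (hF j) (L : ℂ) (t • u₁ + s • u₂)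
      (κ * (bform G₁ s t * bform G₂ s t ^ p))
    rw [hval, mul_zero, ← mul_assoc] at h1
    exact h1

/-- What a normalised curve gives. -/
lemma curve_of_goodC {N c γ p : ℕ} (hp : p ≠ 0) {e : Fin c → ℕ}
    {F : Fin c → MvPolynomial (Fin (N + 1)) ℂ}
    (hF : ∀ j, (F j).IsWeightedHomogeneous (wt N (γ + p)) (e j)) (h : GoodC γ p F)
    (hc : ∃ j, eval (Fin.snoc 0 1 : Fin (N + 1) → ℂ) (F j) ≠ 0) :
    ∃ (x v : Fin N → ℂ) (g l : Polynomial ℂ) (b : ℂ),
      (∀ α β : ℂ, α • x + β • v = 0 → α = 0 ∧ β = 0) ∧ g ≠ 0 ∧ l ≠ 0 ∧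
      g.natDegree ≤ γ ∧ l.natDegree ≤ 1 ∧
      ∀ j s t, eval (Fin.snoc (t • x + s • v) (b * (hform γ g s t * hform 1 l s t ^ p)) :
        Fin (N + 1) → ℂ) (F j) = 0 := by
  obtain ⟨⟨x, v, q, g₁, g₂, a, b⟩, ⟨h1, h2, h3, h4, h5, h6, h7⟩, h⟩ := h
  simp only at h1 h2 h3 h4 h5 h6 h7
  have hne : ∀ {d : ℕ} {q : Fin (d + 1) → ℂ}, ‖q‖ = 1 → q ≠ 0 := by
    rintro d q hq rfl
    rw [norm_zero] at hq
    exact zero_ne_one hq
  obtain ⟨G₁, hG₁0, hG₁d, -, hG₁⟩ := exists_ne_zero (hne h5)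
  obtain ⟨G₂, hG₂0, hG₂d, -, hG₂⟩ := exists_ne_zero (hne h6)
  have hval : ∀ j s t, eval (Fin.snoc (a • (t • x + s • v))
      (b * (hform γ G₁ s t * hform 1 G₂ s t ^ p)) : Fin (N + 1) → ℂ) (F j) = 0 := by
    intro j s t
    have := h j s t
    unfold pt at this
    simp only at this
    rw [hG₁, hG₂] at this
    exact this
  have ha : a ≠ 0 := by
    rintro rfl
    have hb : b ≠ 0 := by
      rintro rfl
      rw [Prod.norm_def] at h7
      simp at h7
    obtain ⟨s₀, hs₀⟩ : ∃ s₀ : ℂ, (G₁ * G₂).eval s₀ ≠ 0 := by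
      by_contra hcon
      push Not at hcon
      apply mul_ne_zero hG₁0 hG₂0
      apply Polynomial.funext
      intro s
      rw [hcon s, Polynomial.eval_zero]
    rw [Polynomial.eval_mul] at hs₀
    obtain ⟨j, hj⟩ := hc
    apply hj
    have h8 := hval j s₀ 1
    rw [zero_smul, hform_one hG₁d, hform_one hG₂d] at h8
    set y := b * (G₁.eval s₀ * G₂.eval s₀ ^ p) with hy
    have hy0 : y ≠ 0 := mul_ne_zero hb (mul_ne_zero (left_ne_zero_of_mul hs₀)
      (pow_ne_zero _ (right_ne_zero_of_mul hs₀)))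
    obtain ⟨c', hc'⟩ := IsAlgClosed.exists_pow_nat_eq y (n := γ + p) (by omega)
    have h9 := eval_snoc_scale (hF j) c' (0 : Fin N → ℂ) 1
    rw [smul_zero, hc', mul_one, h8] at h9
    have hc0 : c' ≠ 0 := by
      rintro rfl
      rw [zero_pow (by omega)] at hc'
      exact hy0 hc'.symm
    exact (mul_eq_zero.mp h9.symm).resolve_left (pow_ne_zero _ hc0)
  refine ⟨x, v, G₁, G₂, (a⁻¹) ^ (γ + p) * b, ?_, hG₁0, hG₂0, hG₁d, hG₂d, ?_⟩
  · intro α β hαβ
    have h3' : star v ⬝ᵥ x = 0 := by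
      rw [star_dotProduct, h3, star_zero]
    have h8 : star x ⬝ᵥ (α • x + β • v) = 0 := by rw [hαβ, dotProduct_zero]
    have h9 : star v ⬝ᵥ (α • x + β • v) = 0 := by rw [hαβ, dotProduct_zero]
    rw [dotProduct_add, dotProduct_smul, dotProduct_smul, h1, h3] at h8
    rw [dotProduct_add, dotProduct_smul, dotProduct_smul, h3', h2] at h9
    simp at h8 h9
    exact ⟨h8, h9⟩
  · intro j s t
    have h8 := eval_snoc_scale (hF j) a⁻¹ (a • (t • x + s • v))
      (b * (hform γ G₁ s t * hform 1 G₂ s t ^ p))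
    rw [hval, mul_zero, smul_smul, inv_mul_cancel₀ ha, one_smul, ← mul_assoc] at h8
    exact h8

/-- If the centre does not lie on `X`, some equation has large degree. -/
lemma le_of_centre {N r e : ℕ} (he : 1 ≤ e) {F : MvPolynomial (Fin (N + 1)) ℂ}
    (hF : F.IsWeightedHomogeneous (wt N r) e)
    (hc : eval (Fin.snoc 0 1 : Fin (N + 1) → ℂ) F ≠ 0) : r ≤ e := by
  rw [eval_eq'] at hc
  obtain ⟨d, hd, hd2⟩ := Finset.exists_ne_zero_of_sum_ne_zero hc
  have h1 : ∑ i, d i * wt N r i = e := by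
    have := hF (mem_support_iff.mp hd)
    rw [← this, Finsupp.weight_apply, Finsupp.sum_fintype]
    · simp
    · simp
  rw [Fin.prod_univ_castSucc] at hd2
  have h2 := left_ne_zero_of_mul (right_ne_zero_of_mul hd2)
  rw [Finset.prod_ne_zero_iff] at h2
  have h3 : ∀ i : Fin N, d i.castSucc = 0 := by
    intro i
    have h4 := h2 i (Finset.mem_univ _)
    rw [Fin.snoc_castSucc, Pi.zero_apply] at h4
    by_contra hne
    exact h4 (zero_pow hne)
  rw [Fin.sum_univ_castSucc] at h1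
  simp only [h3, zero_mul, Finset.sum_const_zero, zero_add, wt_last] at h1
  rcases Nat.eq_zero_or_pos (d (Fin.last N)) with h5 | h5
  · rw [h5, zero_mul] at h1
    omega
  · calc r = 1 * r := (one_mul r).symm
      _ ≤ d (Fin.last N) * r := Nat.mul_le_mul_right r h5
      _ = e := h1

/-- **Existence of the curve.** -/
theorem exists_curve {c m γ p : ℕ} (hp : p ≠ 0) {e : Fin c → ℕ} (he : ∀ j, 1 ≤ e j)
    (hm : ∑ j, (e j + 1) ≤ 2 * m + γ + 2) {F : Fin c → MvPolynomial (Fin (m + 2 + 1)) ℂ}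
    (hF : ∀ j, (F j).IsWeightedHomogeneous (wt (m + 2) (γ + p)) (e j))
    (hc : ∃ j, eval (Fin.snoc 0 1 : Fin (m + 2 + 1) → ℂ) (F j) ≠ 0) :
    ∃ (x v : Fin (m + 2) → ℂ) (g l : Polynomial ℂ) (b : ℂ),
      (∀ α β : ℂ, α • x + β • v = 0 → α = 0 ∧ β = 0) ∧ g ≠ 0 ∧ l ≠ 0 ∧
      g.natDegree ≤ γ ∧ l.natDegree ≤ 1 ∧
      ∀ j s t, eval (Fin.snoc (t • x + s • v) (b * (hform γ g s t * hform 1 l s t ^ p)) :
        Fin (m + 2 + 1) → ℂ) (F j) = 0 := by
  obtain ⟨j₀, hj₀⟩ := hc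
  obtain ⟨S⟩ := exists_sys (m := m) (γ := γ) he j₀ hp (le_of_centre (he j₀) (hF j₀) hj₀) hm
  refine curve_of_goodC hp hF (goodC_of_countable (F₀ := F0 S) ?_) ⟨j₀, hj₀⟩
  refine (countable_special he S F hF).mono ?_
  intro τ hτ hcon
  apply hτ
  obtain ⟨z, hz⟩ := hcon
  have hw : ∀ j, ((1 - τ) • F0 S j + τ • F j).IsWeightedHomogeneous (wt (m + 2) (γ + p)) (e j) := by
    intro j
    rw [← MvPolynomial.mem_weightedHomogeneousSubmodule]
    apply Submodule.add_mem
    · apply Submodule.smul_mem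
      rw [MvPolynomial.mem_weightedHomogeneousSubmodule]
      exact isWeightedHomogeneous_F0 S he j
    · apply Submodule.smul_mem
      rw [MvPolynomial.mem_weightedHomogeneousSubmodule]
      exact hF j
  refine goodC_of_curve hp hw (Fin.cons 0 (Fin.cons 1 fun v => lin (S.B v) z))
    (Fin.cons 1 (Fin.cons 0 fun v => lin (S.A v) z)) ?_ (gP S z) (lP S z) (natDegree_gP S z)
    (natDegree_lP S z) ?_
  · intro α β hαβ
    have h0 := congrFun hαβ 0
    have h1 := congrFun hαβ 1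
    simp only [Pi.add_apply, Pi.smul_apply, smul_eq_mul, Pi.zero_apply] at h0 h1
    have e1 : (Fin.cons 0 (Fin.cons 1 fun v => lin (S.B v) z) : Fin (m + 2) → ℂ) 0 = 0 := rfl
    have e2 : (Fin.cons 1 (Fin.cons 0 fun v => lin (S.A v) z) : Fin (m + 2) → ℂ) 0 = 1 := rfl
    have e3 : (Fin.cons 0 (Fin.cons 1 fun v => lin (S.B v) z) : Fin (m + 2) → ℂ) 1 = 1 := rfl
    have e4 : (Fin.cons 1 (Fin.cons 0 fun v => lin (S.A v) z) : Fin (m + 2) → ℂ) 1 = 0 := rfl
    rw [e1, e2, mul_zero, zero_add, mul_one] at h0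
    rw [e3, e4, mul_zero, add_zero, mul_one] at h1
    exact ⟨h1, h0⟩
  · intro j s
    have h1 := congrArg (Polynomial.eval s) (hz j)
    rw [eval_aeval, Polynomial.eval_zero] at h1
    refine Eq.trans ?_ h1
    congr 2
    funext i
    unfold curve
    refine Fin.lastCases ?_ (fun i => ?_) i
    · rw [Fin.snoc_last, Fin.snoc_last, Polynomial.eval_mul, Polynomial.eval_pow]
    · rw [Fin.snoc_castSucc, Fin.snoc_castSucc, Pi.add_apply, Pi.smul_apply, smul_eq_mul]
      rcases cases2 i with rfl | rfl | ⟨w, rfl⟩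
      · rw [xP_zero, Polynomial.eval_X]
        show (0 : ℂ) + s * 1 = s
        ring
      · rw [xP_one, Polynomial.eval_one]
        show (1 : ℂ) + s * 0 = 1
        ring
      · rw [xP_succ]
        simp only [Polynomial.eval_add, Polynomial.eval_mul, Polynomial.eval_C, Polynomial.eval_X]
        show lin (S.B w) z + s * lin (S.A w) z = _
        ring

end Pool.Agent.H50.Lang
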