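import Mathlib
import Pool.Agent.H50.Lang.Limit
import Pool.Agent.H6.CommonZero

/-!
# Lines through the centre
-/

set_option autoImplicit false

namespace Pool.Agent.H50.Lang

open MvPolynomial Pool.Agent.H86.Refl

/-- The polynomial in the last variable. -/
noncomputable def inLast {N : ℕ} {R : Type*} [CommRing R] [Algebra ℂ R] (x : Fin N → R)
    (F : MvPolynomial (Fin (N + 1)) ℂ) : Polynomial R :=
  aeval (Fin.snoc (fun i => Polynomial.C (x i)) Polynomial.X : Fin (N + 1) → Polynomial R) F

lemma coeff_inLast {N : ℕ} {R : Type*} [CommRing R] [Algebra ℂ R] (x : Fin N → R)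
    (F : MvPolynomial (Fin (N + 1)) ℂ) (k : ℕ) : (inLast x F).coeff k =
      ∑ d ∈ F.support, if d (Fin.last N) = k then
        algebraMap ℂ R (coeff d F) * ∏ i : Fin N, x i ^ d i.castSucc else 0 := by
  unfold inLast
  rw [aeval_def, eval₂_eq', Polynomial.finsetSum_coeff]
  refine Finset.sum_congr rfl fun d _ => ?_
  rw [Fin.prod_univ_castSucc]
  simp only [Fin.snoc_castSucc, Fin.snoc_last]
  have h1 : (∏ i : Fin N, (Polynomial.C (x i) : Polynomial R) ^ d i.castSucc) =
      Polynomial.C (∏ i : Fin N, x i ^ d i.castSucc) := by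
    rw [map_prod]
    simp only [map_pow]
  rw [h1, Polynomial.algebraMap_apply, ← mul_assoc, ← Polynomial.C_mul,
    Polynomial.coeff_C_mul_X_pow]
  simp only [eq_comm]

lemma eval_inLast {N : ℕ} (x : Fin N → ℂ) (F : MvPolynomial (Fin (N + 1)) ℂ) (y : ℂ) :
    (inLast x F).eval y = eval (Fin.snoc x y : Fin (N + 1) → ℂ) F := by
  unfold inLast
  rw [eval_aeval]
  congr 2
  funext i
  refine Fin.lastCases ?_ (fun i => ?_) i
  · rw [Fin.snoc_last, Fin.snoc_last, Polynomial.eval_X]
  · rw [Fin.snoc_castSucc, Fin.snoc_castSucc, Polynomial.eval_C]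

/-- **Lines through the centre.** -/
theorem exists_line_centre {N c r : ℕ} (hr : r ≠ 0) {e : Fin c → ℕ} (he : ∀ j, 1 ≤ e j)
    {F : Fin c → MvPolynomial (Fin (N + 1)) ℂ}
    (hF : ∀ j, (F j).IsWeightedHomogeneous (wt N r) (e j))
    (hc : ∀ j, eval (Fin.snoc 0 1 : Fin (N + 1) → ℂ) (F j) = 0)
    (hcard : ∑ j, (e j + r - 1) / r < N) :
    ∃ x : Fin N → ℂ, x ≠ 0 ∧ ∀ j y, eval (Fin.snoc x y : Fin (N + 1) → ℂ) (F j) = 0 := by
  classical
  have h0 : ∀ j, inLast (0 : Fin N → ℂ) (F j) = 0 := by
    intro j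
    apply Polynomial.funext
    intro y
    rw [eval_inLast, Polynomial.eval_zero]
    obtain ⟨l, hl⟩ := IsAlgClosed.exists_pow_nat_eq y (n := r) (by omega)
    have h1 := eval_snoc_scale (hF j) l (0 : Fin N → ℂ) 1
    rw [smul_zero, hl, mul_one, hc, mul_zero] at h1
    exact h1
  let H : (Σ j : Fin c, Fin ((e j + r - 1) / r)) → MvPolynomial (Fin N) ℂ := fun s =>
    (inLast (R := MvPolynomial (Fin N) ℂ) X (F s.1)).coeff s.2
  have hH : ∀ (s : Σ j : Fin c, Fin ((e j + r - 1) / r)) (x : Fin N → ℂ),
      eval x (H s) = (inLast x (F s.1)).coeff s.2 := by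
    intro s x
    show eval x ((inLast (R := MvPolynomial (Fin N) ℂ) X (F s.1)).coeff s.2) = _
    rw [coeff_inLast, coeff_inLast, map_sum]
    refine Finset.sum_congr rfl fun d _ => ?_
    split_ifs
    · rw [map_mul, map_prod]
      simp [MvPolynomial.algebraMap_eq]
    · rw [map_zero]
  obtain ⟨x, hx0, hx⟩ := Pool.Agent.H6.exists_ne_zero_common_zero H (fun s => by
    rw [hH, h0, Polynomial.coeff_zero]) (by
    simp only [Nat.card_eq_fintype_card, Fintype.card_sigma, Fintype.card_fin]
    exact hcard)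
  refine ⟨x, hx0, fun j y => ?_⟩
  rw [← eval_inLast]
  have h1 : inLast x (F j) = 0 := by
    ext k
    rw [Polynomial.coeff_zero]
    by_cases hk : k < (e j + r - 1) / r
    · have h2 := hx ⟨j, ⟨k, hk⟩⟩
      rw [hH] at h2
      exact h2
    · have h2 : (inLast (0 : Fin N → ℂ) (F j)).coeff k = 0 := by rw [h0, Polynomial.coeff_zero]
      rw [← h2, coeff_inLast, coeff_inLast]
      refine Finset.sum_congr rfl fun d hd => ?_
      split_ifs with hdk
      · have h3 : ∑ i, d i * wt N r i = e j := by
          have := hF j (mem_support_iff.mp hd)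
          rw [← this, Finsupp.weight_apply, Finsupp.sum_fintype]
          · simp
          · simp
        rw [Fin.sum_univ_castSucc, wt_last, hdk] at h3
        simp only [wt_castSucc, mul_one] at h3
        have h4 : e j ≤ k * r := by
          push Not at hk
          have h5 := Nat.div_add_mod (e j + r - 1) r
          have h6 := Nat.mod_lt (e j + r - 1) (Nat.pos_of_ne_zero hr)
          have h7 : r * ((e j + r - 1) / r) ≤ r * k := Nat.mul_le_mul_left r hk
          have h8 : r * k = k * r := mul_comm _ _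
          have := he j
          omega
        have h5 : ∑ i : Fin N, d i.castSucc = 0 := by omega
        rw [Finset.sum_eq_zero_iff] at h5
        congr 1
        refine Finset.prod_congr rfl fun i hi => ?_
        rw [h5 i hi, pow_zero, pow_zero]
      · rfl
  rw [h1, Polynomial.eval_zero]

end Pool.Agent.H50.Lang
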