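import Mathlib
import Pool.Agent.H50.Lang.Centre
import Pool.Agent.H86.Refl.Data

/-!
# Curves of genus at most one in reflection-invariant projective sets
-/

set_option autoImplicit false

open Filter Topology

namespace Pool.Agent.H50.Lang

open MvPolynomial Pool.Agent.H84 Pool.Agent.H86.Refl

/-- The projective set `{G_1 = … = G_c = 0}` contains a rational curve: there is a map
`z ↦ [X_0(z) : … : X_N(z)]` from the affine line to it, given by polynomials without common zero,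
that is not constant. -/
def HasRationalCurve {N c : ℕ} (G : Fin c → MvPolynomial (Fin (N + 1)) ℂ) : Prop :=
  ∃ X : Fin (N + 1) → Polynomial ℂ, (∀ z, (fun i => (X i).eval z) ≠ 0) ∧
    (∀ j z, eval (fun i => (X i).eval z) (G j) = 0) ∧
    ∃ z₁ z₂, ∀ a : ℂ, (fun i => (X i).eval z₁) ≠ a • (fun i => (X i).eval z₂)

/-- The map `(z, w) ↦ [X_0(z) : … : X_(N-1)(z) : w]` from the curve `w ^ p = g(z)`, `deg g ≤ b`, to
the projective set `{G_1 = … = G_c = 0}`, for some polynomials `X_i` without common zero, is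
defined and not constant. -/
def HasCurveW {N c : ℕ} (p b : ℕ) (G : Fin c → MvPolynomial (Fin (N + 1)) ℂ) : Prop :=
  ∃ (xs : Fin N → Polynomial ℂ) (g : Polynomial ℂ), g.natDegree ≤ b ∧
    (∀ z, (fun i => (xs i).eval z) ≠ 0) ∧
    (∀ j z w, w ^ p = g.eval z →
      eval (Fin.snoc (fun i => (xs i).eval z) w : Fin (N + 1) → ℂ) (G j) = 0) ∧
    ∃ z₁ w₁ z₂ w₂, w₁ ^ p = g.eval z₁ ∧ w₂ ^ p = g.eval z₂ ∧ ∀ a : ℂ,
      (Fin.snoc (fun i => (xs i).eval z₁) w₁ : Fin (N + 1) → ℂ) ≠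
        a • (Fin.snoc (fun i => (xs i).eval z₂) w₂ : Fin (N + 1) → ℂ)

/-- The projective set `{G_1 = … = G_c = 0}` in `P^N` contains the image of a non-constant map
`(z, y) ↦ [X_0(z, y) : … : X_N(z, y)]` from the curve `y ^ p = g(z)`, for some `g` with
`deg g ≤ b`, given by polynomials `X_i` without common zero on the curve. -/
def HasCurve {N c : ℕ} (p b : ℕ) (G : Fin c → MvPolynomial (Fin (N + 1)) ℂ) : Prop :=
  ∃ (X : Fin (N + 1) → MvPolynomial (Fin 2) ℂ) (g : Polynomial ℂ), g.natDegree ≤ b ∧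
    (∀ z y, y ^ p = g.eval z → (fun i => eval ![z, y] (X i)) ≠ 0 ∧
      ∀ j, eval (fun i => eval ![z, y] (X i)) (G j) = 0) ∧
    ∃ z₁ y₁ z₂ y₂, y₁ ^ p = g.eval z₁ ∧ y₂ ^ p = g.eval z₂ ∧ ∀ a : ℂ,
      (fun i => eval ![z₁, y₁] (X i)) ≠ a • (fun i => eval ![z₂, y₂] (X i))

lemma eval_aeval_X {q : Polynomial ℂ} (z y : ℂ) :
    eval ![z, y] (Polynomial.aeval (X 0 : MvPolynomial (Fin 2) ℂ) q) = q.eval z := by
  have h := Polynomial.hom_eval₂ q (algebraMap ℂ (MvPolynomial (Fin 2) ℂ)) (eval ![z, y]) (X 0)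
  rw [Polynomial.aeval_def, h]
  have h1 : (eval ![z, y]).comp (algebraMap ℂ (MvPolynomial (Fin 2) ℂ)) = RingHom.id ℂ := by
    ext a
    simp [MvPolynomial.algebraMap_eq]
  rw [h1, eval_X]
  simp [Polynomial.eval₂_id]

lemma HasRationalCurve.hasCurve {N c : ℕ} {G : Fin c → MvPolynomial (Fin (N + 1)) ℂ}
    (h : HasRationalCurve G) : HasCurve 1 0 G := by
  obtain ⟨X', h0, hX, z₁, z₂, hne⟩ := h
  refine ⟨fun i => Polynomial.aeval (X 0) (X' i), 0, by simp, ?_, z₁, 0, z₂, 0, by simp,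
    by simp, fun a => ?_⟩
  · intro z y _
    simp only [eval_aeval_X]
    exact ⟨h0 z, fun j => hX j z⟩
  · simp only [eval_aeval_X]
    exact hne a

lemma HasCurveW.hasCurve {N c p b : ℕ} {G : Fin c → MvPolynomial (Fin (N + 1)) ℂ}
    (h : HasCurveW p b G) : HasCurve p b G := by
  obtain ⟨xs, g, hg, h0, hX, z₁, w₁, z₂, w₂, h1, h2, hne⟩ := h
  have hev : ∀ z y : ℂ, (fun i => eval ![z, y] ((Fin.snoc (fun i => Polynomial.aeval (X 0)
      (xs i)) (X 1) : Fin (N + 1) → MvPolynomial (Fin 2) ℂ) i)) =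
      (Fin.snoc (fun i => (xs i).eval z) y : Fin (N + 1) → ℂ) := by
    intro z y
    funext i
    refine Fin.lastCases ?_ (fun i => ?_) i
    · rw [Fin.snoc_last, Fin.snoc_last, eval_X]
      simp
    · rw [Fin.snoc_castSucc, Fin.snoc_castSucc, eval_aeval_X]
  refine ⟨Fin.snoc (fun i => Polynomial.aeval (X 0) (xs i)) (X 1), g, hg, ?_, z₁, w₁, z₂, w₂,
    h1, h2, fun a => ?_⟩
  · intro z y hy
    rw [hev]
    refine ⟨?_, fun j => hX j z y hy⟩
    intro h3
    apply h0 z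
    funext i
    have h4 := congrFun h3 i.castSucc
    rw [Fin.snoc_castSucc] at h4
    exact h4
  · rw [hev, hev]
    exact hne a

/-- Every holomorphic map from `ℂ` to `X` is constant. -/
def IsBrodyHyperbolic {N : ℕ} (X : Set (PSpace N)) : Prop :=
  ∀ f : ℂ → PSpace N, (∀ z, HolomorphicAt f z) → (∀ z, f z ∈ X) → ∀ z y, f z = f y

/-- Rational curves make `X` non-hyperbolic. -/
lemma not_hyperbolic_of_rational {N c : ℕ} {e : Fin c → ℕ}
    {G : Fin c → MvPolynomial (Fin (N + 1)) ℂ} (hG : ∀ j, (G j).IsHomogeneous (e j))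
    (h : HasRationalCurve G) : ¬ IsBrodyHyperbolic (projectiveSet G) := by
  obtain ⟨X, h0, hX, z₁, z₂, hne⟩ := h
  intro hyp
  have h1 := hyp (fun z => Projectivization.mk ℂ (fun i => (X i).eval z) (h0 z)) ?_ ?_ z₁ z₂
  · rw [Projectivization.mk_eq_mk_iff'] at h1
    obtain ⟨a, ha⟩ := h1
    exact hne a ha.symm
  · intro z
    refine ⟨fun y => fun i => (X i).eval y, ?_, ?_⟩
    · rw [analyticAt_pi_iff]
      intro i
      exact ((X i).differentiable.differentiableOn (s := Set.univ)).analyticAt Filter.univ_mem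
    · exact Filter.Eventually.of_forall fun y => ⟨h0 y, rfl⟩
  · intro z j
    rw [vanishesAt_mk (hG j)]
    exact hX j z

lemma hform_deg_one' {Q : Polynomial ℂ} (s t : ℂ) :
    hform 1 Q s t = Q.coeff 0 * t + Q.coeff 1 * s := by
  unfold hform
  rw [Finset.sum_range_succ, Finset.sum_range_one]
  simp

lemma snoc_eval {N : ℕ} (xs : Fin N → Polynomial ℂ) (W : Polynomial ℂ) (z : ℂ) :
    (fun i => ((Fin.snoc xs W : Fin (N + 1) → Polynomial ℂ) i).eval z) =
      (Fin.snoc (fun i => (xs i).eval z) (W.eval z) : Fin (N + 1) → ℂ) := by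
  funext i
  refine Fin.lastCases ?_ (fun i => ?_) i
  · rw [Fin.snoc_last, Fin.snoc_last]
  · rw [Fin.snoc_castSucc, Fin.snoc_castSucc]

lemma snoc_ne_smul {N : ℕ} {x x' : Fin N → ℂ} {w w' a : ℂ} (h : x ≠ a • x') :
    (Fin.snoc x w : Fin (N + 1) → ℂ) ≠ a • (Fin.snoc x' w' : Fin (N + 1) → ℂ) := by
  intro h1
  apply h
  funext i
  have h2 := congrFun h1 i.castSucc
  rw [Fin.snoc_castSucc, Pi.smul_apply, Fin.snoc_castSucc] at h2
  exact h2

lemma snoc_ne_zero {N : ℕ} {x : Fin N → ℂ} {w : ℂ} (h : x ≠ 0) :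
    (Fin.snoc x w : Fin (N + 1) → ℂ) ≠ 0 := by
  intro h1
  apply h
  funext i
  have h2 := congrFun h1 i.castSucc
  rw [Fin.snoc_castSucc] at h2
  exact h2

/-- The line through the centre. -/
lemma rational_of_centre {N c r : ℕ} {G F : Fin c → MvPolynomial (Fin (N + 1)) ℂ}
    (hGF : ∀ (j : Fin c) (x : Fin N → ℂ) (w : ℂ), eval (Fin.snoc x w : Fin (N + 1) → ℂ) (G j) =
      eval (Fin.snoc x (w ^ r) : Fin (N + 1) → ℂ) (F j)) {x : Fin N → ℂ} (hx : x ≠ 0)
    (h : ∀ j y, eval (Fin.snoc x y : Fin (N + 1) → ℂ) (F j) = 0) : HasRationalCurve G := by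
  have h1 : ∀ z : ℂ, (fun i => (Polynomial.C (x i)).eval z) = x := by
    intro z
    funext i
    rw [Polynomial.eval_C]
  refine ⟨Fin.snoc (fun i => Polynomial.C (x i)) Polynomial.X, ?_, ?_, 0, 1, ?_⟩
  · intro z
    rw [snoc_eval, h1]
    exact snoc_ne_zero hx
  · intro j z
    rw [snoc_eval, h1, hGF, h]
  · intro a ha
    rw [snoc_eval, snoc_eval, h1, h1] at ha
    have h2 := congrFun ha (Fin.last N)
    rw [Fin.snoc_last, Pi.smul_apply, Fin.snoc_last, Polynomial.eval_X, Polynomial.eval_X,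
      smul_eq_mul, mul_one] at h2
    rw [← h2, zero_smul] at ha
    exact snoc_ne_zero hx ha

/-- The line through the centre, as a curve `w ^ p = z`. -/
lemma hasCurve_of_centre {N c r p b : ℕ} (hp : p ≠ 0) (hb : 1 ≤ b)
    {G F : Fin c → MvPolynomial (Fin (N + 1)) ℂ}
    (hGF : ∀ (j : Fin c) (x : Fin N → ℂ) (w : ℂ), eval (Fin.snoc x w : Fin (N + 1) → ℂ) (G j) =
      eval (Fin.snoc x (w ^ r) : Fin (N + 1) → ℂ) (F j)) {x : Fin N → ℂ} (hx : x ≠ 0)
    (h : ∀ j y, eval (Fin.snoc x y : Fin (N + 1) → ℂ) (F j) = 0) : HasCurveW p b G := by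
  have h1 : ∀ z : ℂ, (fun i => (Polynomial.C (x i)).eval z) = x := by
    intro z
    funext i
    rw [Polynomial.eval_C]
  refine ⟨fun i => Polynomial.C (x i), Polynomial.X, Polynomial.natDegree_X_le.trans hb, ?_, ?_,
    0, 0, 1, 1, ?_, ?_, ?_⟩
  · intro z
    rw [h1]
    exact hx
  · intro j z w _
    rw [h1, hGF, h]
  · simp [hp]
  · simp
  · intro a ha
    rw [h1, h1] at ha
    have h2 := congrFun ha (Fin.last N)
    rw [Fin.snoc_last, Pi.smul_apply, Fin.snoc_last, smul_eq_mul, mul_one] at h2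
    rw [← h2, zero_smul] at ha
    exact snoc_ne_zero hx ha

/-- The rational curve `w ^ r = b g l ^ (r - 1)`. -/
lemma rational_of_curve {N c k : ℕ} {G F : Fin c → MvPolynomial (Fin (N + 1)) ℂ}
    (hGF : ∀ (j : Fin c) (x : Fin N → ℂ) (w : ℂ), eval (Fin.snoc x w : Fin (N + 1) → ℂ) (G j) =
      eval (Fin.snoc x (w ^ (k + 2)) : Fin (N + 1) → ℂ) (F j))
    {x v : Fin N → ℂ} {g₁ g₂ : Polynomial ℂ} {ν : ℂ}
    (hind : ∀ α β : ℂ, α • x + β • v = 0 → α = 0 ∧ β = 0) (hg₂0 : g₂ ≠ 0)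
    (hg₂ : g₂.natDegree ≤ 1)
    (hz : ∀ j s t, eval (Fin.snoc (t • x + s • v) (ν * (hform 1 g₁ s t * hform 1 g₂ s t ^ (k + 1))) :
        Fin (N + 1) → ℂ) (F j) = 0) : HasRationalCurve G := by
  simp only [hform_deg_one'] at hz
  have hcoef : ∀ g : Polynomial ℂ, g ≠ 0 → g.natDegree ≤ 1 →
      ¬ (g.coeff 0 = 0 ∧ g.coeff 1 = 0) := by
    rintro g hg hgd ⟨h0, h1⟩
    apply hg
    ext i
    rcases i with _ | _ | i
    · simpa using h0
    · simpa using h1
    · rw [Polynomial.coeff_zero]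
      exact Polynomial.coeff_eq_zero_of_natDegree_lt (by omega)
  set α₁ := g₁.coeff 0
  set β₁ := g₁.coeff 1
  set α₂ := g₂.coeff 0
  set β₂ := g₂.coeff 1
  -- curve from polynomial parametrisation of the line
  have key : ∀ (S T : Polynomial ℂ) (W : Polynomial ℂ),
      (∀ z, S.eval z ≠ 0 ∨ T.eval z ≠ 0) →
      (∀ z, W.eval z ^ (k + 2) = ν * ((α₁ * T.eval z + β₁ * S.eval z) *
        (α₂ * T.eval z + β₂ * S.eval z) ^ (k + 1))) →
      (∃ z₁ z₂, ∀ c : ℂ, ¬ (S.eval z₁ = c * S.eval z₂ ∧ T.eval z₁ = c * T.eval z₂)) →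
      HasRationalCurve G := by
    intro S T W h0 hW hne
    have hX : ∀ z, (fun j => (Polynomial.C (x j) * T + Polynomial.C (v j) * S).eval z) =
        T.eval z • x + S.eval z • v := by
      intro z
      funext j
      simp only [Polynomial.eval_add, Polynomial.eval_mul, Polynomial.eval_C, Pi.add_apply,
        Pi.smul_apply, smul_eq_mul]
      ring
    have hX0 : ∀ z, T.eval z • x + S.eval z • v ≠ 0 := by
      intro z hz0
      have := hind _ _ hz0
      rcases h0 z with h | h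
      · exact h this.2
      · exact h this.1
    refine ⟨Fin.snoc (fun j => Polynomial.C (x j) * T + Polynomial.C (v j) * S) W, ?_, ?_, ?_⟩
    · intro z
      rw [snoc_eval, hX]
      exact snoc_ne_zero (hX0 z)
    · intro j z
      rw [snoc_eval, hX, hGF, hW, hz]
    · obtain ⟨z₁, z₂, h12⟩ := hne
      refine ⟨z₁, z₂, fun c => ?_⟩
      rw [snoc_eval, snoc_eval, hX, hX]
      apply snoc_ne_smul
      intro hc
      apply h12 c
      have h3 : (T.eval z₁ - c * T.eval z₂) • x + (S.eval z₁ - c * S.eval z₂) • v = 0 := by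
        have h4 : (T.eval z₁ - c * T.eval z₂) • x + (S.eval z₁ - c * S.eval z₂) • v =
            (T.eval z₁ • x + S.eval z₁ • v) - c • (T.eval z₂ • x + S.eval z₂ • v) := by
          module
        rw [h4, hc, sub_self]
      have h5 := hind _ _ h3
      exact ⟨sub_eq_zero.mp h5.2, sub_eq_zero.mp h5.1⟩
  obtain ⟨ν', hν'⟩ := IsAlgClosed.exists_pow_nat_eq ν (n := k + 2) (by omega)
  by_cases hdet : β₁ * α₂ - α₁ * β₂ = 0
  · -- proportional factors
    obtain ⟨c, hc1, hc2⟩ : ∃ c : ℂ, α₁ = c * α₂ ∧ β₁ = c * β₂ := by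
      by_cases hα : α₂ = 0
      · have hβ : β₂ ≠ 0 := fun hβ => hcoef g₂ hg₂0 hg₂ ⟨hα, hβ⟩
        refine ⟨β₁ / β₂, ?_, ?_⟩
        · rw [hα, mul_zero]
          rw [hα, mul_zero, zero_sub, neg_eq_zero] at hdet
          exact (mul_eq_zero.mp hdet).resolve_right hβ
        · field_simp
      · refine ⟨α₁ / α₂, by field_simp, ?_⟩
        field_simp
        linear_combination hdet
    obtain ⟨c', hc'⟩ := IsAlgClosed.exists_pow_nat_eq c (n := k + 2) (by omega)
    refine key Polynomial.X 1 (Polynomial.C (ν' * c') *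
      (Polynomial.C α₂ + Polynomial.C β₂ * Polynomial.X)) ?_ ?_ ?_
    · intro z
      right
      simp
    · intro z
      rw [Polynomial.eval_mul]
      simp only [Polynomial.eval_C, Polynomial.eval_X, Polynomial.eval_one, Polynomial.eval_add,
        Polynomial.eval_mul, mul_one]
      rw [hc1, hc2, mul_pow, mul_pow, hν', hc']
      ring
    · refine ⟨0, 1, fun c hc => ?_⟩
      simp only [Polynomial.eval_X, Polynomial.eval_one, mul_one] at hc
      rw [← hc.1] at hc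
      exact one_ne_zero hc.2
  · -- independent factors
    set Δ := β₁ * α₂ - α₁ * β₂ with hΔ
    refine key (Polynomial.C Δ⁻¹ * (Polynomial.C α₂ * Polynomial.X ^ (k + 2) - Polynomial.C α₁))
      (Polynomial.C Δ⁻¹ * (Polynomial.C β₁ - Polynomial.C β₂ * Polynomial.X ^ (k + 2)))
      (Polynomial.C ν' * Polynomial.X) ?_ ?_ ?_
    · intro z
      by_contra hcon
      push Not at hcon
      obtain ⟨h1, h2⟩ := hcon
      simp only [Polynomial.eval_mul, Polynomial.eval_C, Polynomial.eval_sub,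
        Polynomial.eval_pow, Polynomial.eval_X] at h1 h2
      have h3 : Δ⁻¹ * Δ = 1 := inv_mul_cancel₀ hdet
      have h4 : (1 : ℂ) = β₂ * (Δ⁻¹ * (α₂ * z ^ (k + 2) - α₁)) +
          α₂ * (Δ⁻¹ * (β₁ - β₂ * z ^ (k + 2))) := by
        rw [← h3, hΔ]
        ring
      rw [h1, h2] at h4
      simp at h4
    · intro z
      rw [Polynomial.eval_mul]
      simp only [Polynomial.eval_C, Polynomial.eval_X, Polynomial.eval_sub, Polynomial.eval_pow,
        Polynomial.eval_mul]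
      have h1 : α₁ * (Δ⁻¹ * (β₁ - β₂ * z ^ (k + 2))) +
          β₁ * (Δ⁻¹ * (α₂ * z ^ (k + 2) - α₁)) = z ^ (k + 2) := by
        have h3 : Δ⁻¹ * Δ = 1 := inv_mul_cancel₀ hdet
        have h4 : α₁ * (Δ⁻¹ * (β₁ - β₂ * z ^ (k + 2))) +
          β₁ * (Δ⁻¹ * (α₂ * z ^ (k + 2) - α₁)) = (Δ⁻¹ * Δ) * z ^ (k + 2) := by
          rw [hΔ]
          ring
        rw [h4, h3, one_mul]
      have h2 : α₂ * (Δ⁻¹ * (β₁ - β₂ * z ^ (k + 2))) +
          β₂ * (Δ⁻¹ * (α₂ * z ^ (k + 2) - α₁)) = 1 := by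
        have h3 : Δ⁻¹ * Δ = 1 := inv_mul_cancel₀ hdet
        rw [← h3, hΔ]
        ring
      rw [h1, h2, one_pow, mul_one, mul_pow, hν']
    · refine ⟨1, 0, fun c hc => ?_⟩
      obtain ⟨h1, h2⟩ := hc
      simp only [Polynomial.eval_mul, Polynomial.eval_C, Polynomial.eval_sub,
        Polynomial.eval_pow, Polynomial.eval_X, one_pow, mul_one, ne_eq, Nat.add_eq_zero_iff,
        OfNat.ofNat_ne_zero, and_false, not_false_eq_true, zero_pow, mul_zero, zero_sub,
        sub_zero] at h1 h2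
      have h3 : Δ⁻¹ * Δ = 1 := inv_mul_cancel₀ hdet
      have h4 : α₁ * (Δ⁻¹ * (β₁ - β₂)) + β₁ * (Δ⁻¹ * (α₂ - α₁)) = 1 := by
        rw [← h3, hΔ]
        ring
      rw [h1, h2] at h4
      have h5 : α₁ * (c * (Δ⁻¹ * β₁)) + β₁ * (c * (Δ⁻¹ * -α₁)) = 0 := by ring
      rw [h5] at h4
      exact zero_ne_one h4

/-- Entire curves from curves `w ^ (p + 1) = g(z)` of genus at most one. -/
lemma not_hyperbolic_of_poly {N c κ p : ℕ} (hκ : κ * p = 2) {e : Fin c → ℕ}
    {G F : Fin c → MvPolynomial (Fin (N + 1)) ℂ} (hG : ∀ j, (G j).IsHomogeneous (e j))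
    (hF : ∀ j, (F j).IsWeightedHomogeneous (wt N (p + 1)) (e j))
    (hGF : ∀ (j : Fin c) (x : Fin N → ℂ) (w : ℂ), eval (Fin.snoc x w : Fin (N + 1) → ℂ) (G j) =
      eval (Fin.snoc x (w ^ (p + 1)) : Fin (N + 1) → ℂ) (F j))
    {xs : Fin N → Polynomial ℂ} {g : Polynomial ℂ} (degx : ∀ i, (xs i).natDegree ≤ κ)
    (degg : g.natDegree ≤ κ + 2) (hx0 : ∀ z, (fun i => (xs i).eval z) ≠ 0)
    (hz : ∀ (j : Fin c) (t : ℂ),
      eval (Fin.snoc (fun i => (xs i).eval t) (g.eval t) : Fin (N + 1) → ℂ) (F j) = 0)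
    (hnc : ∃ z₁ z₂, ∀ a : ℂ, (fun i => (xs i).eval z₁) ≠ a • (fun i => (xs i).eval z₂)) :
    ¬ IsBrodyHyperbolic (projectiveSet G) := by
  by_cases hg : g = 0
  · apply not_hyperbolic_of_rational hG
    refine ⟨Fin.snoc xs 0, ?_, ?_, ?_⟩
    · intro z
      rw [snoc_eval]
      exact snoc_ne_zero (hx0 z)
    · intro j z
      rw [snoc_eval, Polynomial.eval_zero, hGF, zero_pow (by omega)]
      have h1 := hz j z
      rw [hg, Polynomial.eval_zero] at h1
      exact h1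
    · obtain ⟨z₁, z₂, h12⟩ := hnc
      refine ⟨z₁, z₂, fun a => ?_⟩
      rw [snoc_eval, snoc_eval]
      exact snoc_ne_smul (h12 a)
  · obtain ⟨s₀, hs₀⟩ : ∃ s₀ : ℂ, g.eval s₀ ≠ 0 := by
      by_contra hcon
      push Not at hcon
      apply hg
      apply Polynomial.funext
      intro s
      rw [hcon s, Polynomial.eval_zero]
    obtain ⟨w₀, hw₀⟩ := IsAlgClosed.exists_pow_nat_eq (g.eval s₀) (n := p + 1) (by omega)
    have hw₀0 : w₀ ≠ 0 := by
      rintro rfl
      rw [zero_pow (by omega)] at hw₀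
      exact hs₀ hw₀.symm
    set P : Fin (N + 1) → ℂ := Fin.snoc (fun i => (xs i).eval s₀) w₀ with hP
    have hPc : ∀ i : Fin N, P i.castSucc = (xs i).eval s₀ := by
      intro i
      rw [hP, Fin.snoc_castSucc]
    have hPl : P (Fin.last N) = w₀ := by
      rw [hP, Fin.snoc_last]
    set σ : Polynomial ℂ := Polynomial.X + Polynomial.C s₀ with hσ
    have hσd : σ.natDegree ≤ 1 := by
      rw [hσ]
      refine (Polynomial.natDegree_add_le _ _).trans (max_le Polynomial.natDegree_X_le (by simp))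
    have hcomp : ∀ (q : Polynomial ℂ) (z : ℂ), (q.comp σ).eval z = q.eval (z + s₀) := by
      intro q z
      rw [Polynomial.eval_comp, hσ]
      simp
    have hdeg : ∀ (q : Polynomial ℂ) (d : ℕ), q.natDegree ≤ d → (q.comp σ).natDegree ≤ d := by
      intro q d hq
      refine Polynomial.natDegree_comp_le.trans ?_
      calc q.natDegree * σ.natDegree ≤ q.natDegree * 1 := Nat.mul_le_mul_left _ hσd
        _ ≤ d := by omega
    have hD : CurveData κ p G P (fun i => (xs i).comp σ) (g.comp σ) := by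
      apply curveData_of_lower hκ hF hGF
      · intro i
        exact hdeg _ _ (degx i)
      · exact hdeg _ _ degg
      · intro i
        rw [hcomp, zero_add, hPc]
      · rw [hcomp, zero_add, hPl, hw₀]
      · intro j t
        simp only [hcomp]
        exact hz j _
      · rintro ⟨μ, h1, -⟩
        obtain ⟨z₁, z₂, h12⟩ := hnc
        have h3 : ∀ z, (fun i => (xs i).eval z) = μ.eval (z - s₀) • fun i => (xs i).eval s₀ := by
          intro z
          funext i
          have h4 := congrArg (Polynomial.eval (z - s₀)) (h1 i)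
          rw [hcomp, sub_add_cancel, Polynomial.eval_mul, Polynomial.eval_C, hPc] at h4
          rw [h4, Pi.smul_apply, smul_eq_mul, mul_comm]
        have h5 : μ.eval (z₂ - s₀) ≠ 0 := by
          intro h5
          apply hx0 z₂
          rw [h3, h5, zero_smul]
        apply h12 (μ.eval (z₁ - s₀) * (μ.eval (z₂ - s₀))⁻¹)
        rw [h3 z₁, h3 z₂, smul_smul, mul_assoc, inv_mul_cancel₀ h5, mul_one]
    have hP0 : P ≠ 0 := snoc_ne_zero (hx0 s₀)
    have hℓ : ∃ ℓ : Fin N, P ℓ.castSucc ≠ 0 := by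
      by_contra hcon
      push Not at hcon
      apply hx0 s₀
      funext i
      rw [← hPc, hcon]
      rfl
    obtain ⟨f, hf1, hf2, -, ζ, -, hf3⟩ := exists_entire_of_data hG hD (by rw [hPl]; exact hw₀0)
      hP0 hℓ
    intro hyp
    exact hf3 (hyp f hf1 hf2 ζ 0)

lemma exists_root_pow {p : ℕ} (hp : p ≠ 0) (a : ℂ) : ∃ w : ℂ, w ^ p = a :=
  IsAlgClosed.exists_pow_nat_eq a (Nat.pos_of_ne_zero hp)

/-- The curve of genus at most one from its data. -/
lemma hasCurve_of_poly {N c p b : ℕ} (hp : p ≠ 0) {G F : Fin c → MvPolynomial (Fin (N + 1)) ℂ}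
    (hGF : ∀ (j : Fin c) (x : Fin N → ℂ) (w : ℂ), eval (Fin.snoc x w : Fin (N + 1) → ℂ) (G j) =
      eval (Fin.snoc x (w ^ p) : Fin (N + 1) → ℂ) (F j))
    {xs : Fin N → Polynomial ℂ} {g : Polynomial ℂ}
    (degg : g.natDegree ≤ b) (hx0 : ∀ z, (fun i => (xs i).eval z) ≠ 0)
    (hz : ∀ (j : Fin c) (t : ℂ),
      eval (Fin.snoc (fun i => (xs i).eval t) (g.eval t) : Fin (N + 1) → ℂ) (F j) = 0)
    (hnc : ∃ z₁ z₂, ∀ a : ℂ, (fun i => (xs i).eval z₁) ≠ a • (fun i => (xs i).eval z₂)) :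
    HasCurveW p b G := by
  obtain ⟨z₁, z₂, h12⟩ := hnc
  obtain ⟨w₁, hw₁⟩ := exists_root_pow hp (g.eval z₁)
  obtain ⟨w₂, hw₂⟩ := exists_root_pow hp (g.eval z₂)
  refine ⟨xs, g, degg, hx0, ?_, z₁, w₁, z₂, w₂, hw₁, hw₂, fun a => snoc_ne_smul (h12 a)⟩
  intro j z w hw
  rw [hGF, hw, hz]

end Pool.Agent.H50.Lang
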