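import Mathlib
import Pool.Agent.H50.Lang.Curves

/-!
# Curves of genus at most one: the cases of order three and four
-/

set_option autoImplicit false

open Filter Topology

namespace Pool.Agent.H50.Lang

open MvPolynomial Pool.Agent.H84 Pool.Agent.H86.Refl

/-- Curves parametrised by `x = A(z) u + w`. -/
lemma frame_facts {N : ℕ} {x v : Fin N → ℂ}
    (hind : ∀ α β : ℂ, α • x + β • v = 0 → α = 0 ∧ β = 0) (A : Polynomial ℂ)
    {σ τ σ' τ' : ℂ} (hdet : σ * τ' - τ * σ' ≠ 0) (hA : A.eval 0 ≠ A.eval 1) :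
    (∀ z, (A.eval z * τ + τ') • x + (A.eval z * σ + σ') • v ≠ 0) ∧
    ∃ z₁ z₂, ∀ a : ℂ, (A.eval z₁ * τ + τ') • x + (A.eval z₁ * σ + σ') • v ≠
      a • ((A.eval z₂ * τ + τ') • x + (A.eval z₂ * σ + σ') • v) := by
  refine ⟨?_, 0, 1, ?_⟩
  · intro z h
    obtain ⟨h1, h2⟩ := hind _ _ h
    apply hdet
    linear_combination σ * h1 - τ * h2
  · intro a h
    have h1 : ((A.eval 0 * τ + τ') - a * (A.eval 1 * τ + τ')) • x +
        ((A.eval 0 * σ + σ') - a * (A.eval 1 * σ + σ')) • v = 0 := by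
      have h2 : ((A.eval 0 * τ + τ') - a * (A.eval 1 * τ + τ')) • x +
        ((A.eval 0 * σ + σ') - a * (A.eval 1 * σ + σ')) • v =
        ((A.eval 0 * τ + τ') • x + (A.eval 0 * σ + σ') • v) -
          a • ((A.eval 1 * τ + τ') • x + (A.eval 1 * σ + σ') • v) := by module
      rw [h2, h, sub_self]
    obtain ⟨h2, h3⟩ := hind _ _ h1
    have h4 : (1 - a) * (σ * τ' - τ * σ') = 0 := by linear_combination σ * h2 - τ * h3
    have h5 : a = 1 := by
      rcases mul_eq_zero.mp h4 with h | h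
      · exact (sub_eq_zero.mp h).symm
      · exact absurd h hdet
    rw [h5] at h2 h3
    apply hA
    have h6 : (A.eval 0 - A.eval 1) * (σ * τ' - τ * σ') = 0 := by
      linear_combination τ' * h3 - σ' * h2
    rcases mul_eq_zero.mp h6 with h | h
    · exact sub_eq_zero.mp h
    · exact absurd h hdet

/-- A parametrisation `z ↦ (S(z), T(z))` such that a given binary quadratic form becomes a
square. -/
lemma exists_sqrt_param {g : Polynomial ℂ} (hg : g.natDegree ≤ 2) :
    ∃ (σ τ σ' τ' : ℂ) (A V : Polynomial ℂ), σ * τ' - τ * σ' ≠ 0 ∧ A.eval 0 ≠ A.eval 1 ∧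
      A.natDegree ≤ 2 ∧ V.natDegree ≤ 1 ∧
      ∀ z, hform 2 g (A.eval z * σ + σ') (A.eval z * τ + τ') = V.eval z ^ 2 := by
  have hq : ∀ s t : ℂ, hform 2 g s t = g.coeff 0 * t ^ 2 + g.coeff 1 * s * t +
      g.coeff 2 * s ^ 2 := by
    intro s t
    unfold hform
    simp [Finset.sum_range_succ]
  -- a basis
  obtain ⟨σ, τ, σ', τ', δ, ε, hdet, hδ⟩ : ∃ σ τ σ' τ' δ ε : ℂ, σ * τ' - τ * σ' ≠ 0 ∧
      ∀ a : ℂ, hform 2 g (a * σ + σ') (a * τ + τ') = δ * a + ε := by
    by_cases h2 : g.coeff 2 = 0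
    · refine ⟨1, 0, 0, 1, g.coeff 1, g.coeff 0, by simp, fun a => ?_⟩
      rw [hq, h2]
      ring
    · obtain ⟨d, hd⟩ := IsAlgClosed.exists_pow_nat_eq (g.coeff 1 ^ 2 - 4 * g.coeff 2 * g.coeff 0)
        (n := 2) (by norm_num)
      set s₀ := (-g.coeff 1 + d) / (2 * g.coeff 2) with hs₀
      have hroot : g.coeff 2 * s₀ ^ 2 + g.coeff 1 * s₀ + g.coeff 0 = 0 := by
        rw [hs₀]
        field_simp
        linear_combination hd
      refine ⟨s₀, 1, 1, 0, g.coeff 1 + 2 * g.coeff 2 * s₀, g.coeff 2, by simp, fun a => ?_⟩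
      rw [hq]
      linear_combination a ^ 2 * hroot
  by_cases hδ0 : δ = 0
  · obtain ⟨ε', hε'⟩ := IsAlgClosed.exists_pow_nat_eq ε (n := 2) (by norm_num)
    refine ⟨σ, τ, σ', τ', Polynomial.X, Polynomial.C ε', hdet, by simp,
      Polynomial.natDegree_X_le.trans (by norm_num), by simp, fun z => ?_⟩
    rw [hδ, hδ0, Polynomial.eval_C, hε']
    ring
  · refine ⟨σ, τ, σ', τ', Polynomial.C δ⁻¹ * (Polynomial.X ^ 2 - Polynomial.C ε), Polynomial.X,
      hdet, ?_, ?_, Polynomial.natDegree_X_le, fun z => ?_⟩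
    · simp only [Polynomial.eval_mul, Polynomial.eval_C, Polynomial.eval_sub,
        Polynomial.eval_pow, Polynomial.eval_X]
      intro h
      have h1 := mul_left_cancel₀ (inv_ne_zero hδ0) h
      have h2 : (1 : ℂ) = 0 := by linear_combination -h1
      exact one_ne_zero h2
    · refine (Polynomial.natDegree_C_mul_le _ _).trans ?_
      compute_degree
    · rw [hδ]
      simp only [Polynomial.eval_mul, Polynomial.eval_C, Polynomial.eval_sub,
        Polynomial.eval_pow, Polynomial.eval_X]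
      field_simp
      ring

/-- The plane cubic over a line. -/
lemma cubic_of_curve {N c : ℕ} {e : Fin c → ℕ} {G F : Fin c → MvPolynomial (Fin (N + 1)) ℂ}
    (hG : ∀ j, (G j).IsHomogeneous (e j)) (hF : ∀ j, (F j).IsWeightedHomogeneous (wt N 3) (e j))
    (hGF : ∀ (j : Fin c) (x : Fin N → ℂ) (w : ℂ), eval (Fin.snoc x w : Fin (N + 1) → ℂ) (G j) =
      eval (Fin.snoc x (w ^ 3) : Fin (N + 1) → ℂ) (F j))
    {x v : Fin N → ℂ} {g l : Polynomial ℂ} {b : ℂ}
    (hind : ∀ α β : ℂ, α • x + β • v = 0 → α = 0 ∧ β = 0)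
    (hg : g.natDegree ≤ 2) (hl : l.natDegree ≤ 1)
    (hz : ∀ j s t, eval (Fin.snoc (t • x + s • v) (b * (hform 2 g s t * hform 1 l s t ^ 1)) :
        Fin (N + 1) → ℂ) (F j) = 0) :
    HasCurveW 3 3 G ∧ ¬ IsBrodyHyperbolic (projectiveSet G) := by
  have hxs : ∀ z : ℂ, (fun i => (Polynomial.C (x i) + Polynomial.C (v i) *
      Polynomial.X).eval z) = (1 : ℂ) • x + z • v := by
    intro z
    funext i
    simp
    ring
  have hfr := frame_facts (σ := 1) (τ := 0) (σ' := 0) (τ' := 1) hind Polynomial.X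
    (by simp) (by simp)
  simp only [Polynomial.eval_X, mul_zero, zero_add, mul_one, add_zero] at hfr
  have hgd : (Polynomial.C b * (g * l)).natDegree ≤ 3 := by
    refine (Polynomial.natDegree_C_mul_le _ _).trans (Polynomial.natDegree_mul_le.trans ?_)
    omega
  have hx0 : ∀ z : ℂ, (fun i => (Polynomial.C (x i) + Polynomial.C (v i) *
      Polynomial.X).eval z) ≠ 0 := by
    intro z
    rw [hxs]
    exact hfr.1 z
  have hnc : ∃ z₁ z₂ : ℂ, ∀ a : ℂ, (fun i => (Polynomial.C (x i) + Polynomial.C (v i) *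
      Polynomial.X).eval z₁) ≠ a • (fun i => (Polynomial.C (x i) + Polynomial.C (v i) *
      Polynomial.X).eval z₂) := by
    obtain ⟨z₁, z₂, h12⟩ := hfr.2
    refine ⟨z₁, z₂, fun a => ?_⟩
    rw [hxs, hxs]
    exact h12 a
  have hz' : ∀ (j : Fin c) (t : ℂ), eval (Fin.snoc (fun i => (Polynomial.C (x i) +
      Polynomial.C (v i) * Polynomial.X).eval t) ((Polynomial.C b * (g * l)).eval t) :
      Fin (N + 1) → ℂ) (F j) = 0 := by
    intro j t
    rw [hxs]
    have h1 := hz j t 1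
    rw [hform_one hg, hform_one hl, pow_one] at h1
    rw [Polynomial.eval_mul, Polynomial.eval_C, Polynomial.eval_mul]
    exact h1
  refine ⟨hasCurve_of_poly (by norm_num) hGF hgd hx0 hz' hnc,
    not_hyperbolic_of_poly (κ := 1) (p := 2) rfl hG hF hGF ?_ hgd hx0 hz' hnc⟩
  intro i
  refine (Polynomial.natDegree_add_le _ _).trans (max_le (by simp) ?_)
  exact (Polynomial.natDegree_C_mul_le _ _).trans Polynomial.natDegree_X_le

/-- The curve `w ^ 4 = b g l ^ 2` over a line. -/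
lemma quartic_of_curve {N c : ℕ} {e : Fin c → ℕ} {G F F' : Fin c → MvPolynomial (Fin (N + 1)) ℂ}
    (hG : ∀ j, (G j).IsHomogeneous (e j))
    (hF' : ∀ j, (F' j).IsWeightedHomogeneous (wt N 2) (e j))
    (hGF : ∀ (j : Fin c) (x : Fin N → ℂ) (w : ℂ), eval (Fin.snoc x w : Fin (N + 1) → ℂ) (G j) =
      eval (Fin.snoc x (w ^ 4) : Fin (N + 1) → ℂ) (F j))
    (hGF' : ∀ (j : Fin c) (x : Fin N → ℂ) (w : ℂ), eval (Fin.snoc x w : Fin (N + 1) → ℂ) (G j) =
      eval (Fin.snoc x (w ^ 2) : Fin (N + 1) → ℂ) (F' j))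
    {x v : Fin N → ℂ} {g l : Polynomial ℂ} {b : ℂ}
    (hind : ∀ α β : ℂ, α • x + β • v = 0 → α = 0 ∧ β = 0)
    (hg : g.natDegree ≤ 2)
    (hz : ∀ j s t, eval (Fin.snoc (t • x + s • v) (b * (hform 2 g s t * hform 1 l s t ^ 2)) :
        Fin (N + 1) → ℂ) (F j) = 0) :
    HasCurveW 2 4 G ∧ ¬ IsBrodyHyperbolic (projectiveSet G) := by
  obtain ⟨σ, τ, σ', τ', A, V, hdet, hA, hAd, hVd, hV⟩ := exists_sqrt_param hg
  obtain ⟨β, hβ⟩ := IsAlgClosed.exists_pow_nat_eq b (n := 2) (by norm_num)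
  set S : Polynomial ℂ := A * Polynomial.C σ + Polynomial.C σ' with hS
  set T : Polynomial ℂ := A * Polynomial.C τ + Polynomial.C τ' with hT
  have hSe : ∀ z, S.eval z = A.eval z * σ + σ' := by
    intro z
    simp [hS]
  have hTe : ∀ z, T.eval z = A.eval z * τ + τ' := by
    intro z
    simp [hT]
  have hSd : S.natDegree ≤ 2 := by
    refine (Polynomial.natDegree_add_le _ _).trans (max_le ?_ (by simp))
    exact (Polynomial.natDegree_mul_C_le _ _).trans hAd
  have hTd : T.natDegree ≤ 2 := by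
    refine (Polynomial.natDegree_add_le _ _).trans (max_le ?_ (by simp))
    exact (Polynomial.natDegree_mul_C_le _ _).trans hAd
  have hfr := frame_facts hind A hdet hA
  have hxs : ∀ z : ℂ, (fun i => (Polynomial.C (x i) * T + Polynomial.C (v i) * S).eval z) =
      (A.eval z * τ + τ') • x + (A.eval z * σ + σ') • v := by
    intro z
    funext i
    simp only [Polynomial.eval_add, Polynomial.eval_mul, Polynomial.eval_C, hSe, hTe,
      Pi.add_apply, Pi.smul_apply, smul_eq_mul]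
    ring
  set g' : Polynomial ℂ := Polynomial.C β * ((Polynomial.C (l.coeff 0) * T +
    Polynomial.C (l.coeff 1) * S) * V) with hg'
  have hgd : g'.natDegree ≤ 4 := by
    have h1 : (Polynomial.C (l.coeff 0) * T + Polynomial.C (l.coeff 1) * S).natDegree ≤ 2 :=
      (Polynomial.natDegree_add_le _ _).trans (max_le
        ((Polynomial.natDegree_C_mul_le _ _).trans hTd)
        ((Polynomial.natDegree_C_mul_le _ _).trans hSd))
    refine (Polynomial.natDegree_C_mul_le _ _).trans (Polynomial.natDegree_mul_le.trans ?_)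
    omega
  have hx0 : ∀ z : ℂ, (fun i => (Polynomial.C (x i) * T + Polynomial.C (v i) * S).eval z) ≠ 0 := by
    intro z
    rw [hxs]
    exact hfr.1 z
  have hnc : ∃ z₁ z₂ : ℂ, ∀ a : ℂ,
      (fun i => (Polynomial.C (x i) * T + Polynomial.C (v i) * S).eval z₁) ≠
        a • (fun i => (Polynomial.C (x i) * T + Polynomial.C (v i) * S).eval z₂) := by
    obtain ⟨z₁, z₂, h12⟩ := hfr.2
    refine ⟨z₁, z₂, fun a => ?_⟩
    rw [hxs, hxs]
    exact h12 a
  have hz' : ∀ (j : Fin c) (t : ℂ), eval (Fin.snoc (fun i => (Polynomial.C (x i) * T +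
      Polynomial.C (v i) * S).eval t) (g'.eval t) : Fin (N + 1) → ℂ) (F' j) = 0 := by
    intro j t
    obtain ⟨w, hw⟩ := IsAlgClosed.exists_pow_nat_eq (g'.eval t) (n := 2) (by norm_num)
    rw [← hw, ← hGF', hGF, hxs]
    have h1 := hz j (A.eval t * σ + σ') (A.eval t * τ + τ')
    rw [hV] at h1
    have h2 : w ^ 4 = b * (V.eval t ^ 2 * hform 1 l (A.eval t * σ + σ') (A.eval t * τ + τ') ^ 2) := by
      have h3 : w ^ 4 = (w ^ 2) ^ 2 := by ring
      rw [h3, hw, hg', hform_deg_one', ← hβ]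
      simp only [Polynomial.eval_mul, Polynomial.eval_C, Polynomial.eval_add, hSe, hTe]
      ring
    rw [h2]
    exact h1
  refine ⟨hasCurve_of_poly (by norm_num) hGF' hgd hx0 hz' hnc,
    not_hyperbolic_of_poly (κ := 2) (p := 1) rfl hG hF' hGF' ?_ hgd hx0 hz' hnc⟩
  intro i
  exact (Polynomial.natDegree_add_le _ _).trans (max_le
    ((Polynomial.natDegree_C_mul_le _ _).trans hTd)
    ((Polynomial.natDegree_C_mul_le _ _).trans hSd))

end Pool.Agent.H50.Lang
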